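import Pool.Agent.Helper29.Bisect.Good

set_option linter.unusedSectionVars false

/-!
# The case without a dominating vertex
-/

namespace Pool.Agent.Helper29.Bisect

open Finset

variable {V : Type*} [Fintype V] [DecidableEq V]

theorem dg_le (A : V → V → ℤ) (h0 : ∀ a, A a a = 0) (hAle : ∀ a b, A a b ≤ 1) (a : V) :
    dg A a ≤ Fintype.card V - 1 := by
  unfold dg
  rw [← Finset.sum_erase_add _ _ (Finset.mem_univ a), h0, add_zero]
  calc ∑ b ∈ Finset.univ.erase a, A a b ≤ ∑ b ∈ Finset.univ.erase a, (1 : ℤ) :=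
        Finset.sum_le_sum fun b _ => hAle a b
    _ = Fintype.card V - 1 := by
        rw [Finset.sum_const, Finset.card_erase_of_mem (Finset.mem_univ a), Finset.card_univ]
        have : 1 ≤ Fintype.card V := Fintype.card_pos_iff.2 ⟨a⟩
        simp only [nsmul_eq_mul, mul_one]
        omega

theorem three_dg (A : V → V → ℤ) (h0 : ∀ a, A a a = 0) (hAle : ∀ a b, A a b ≤ 1)
    (hmin : ∀ a, 2 ≤ dg A a) (a : V) : 3 * dg A a ≤ M2 A := by
  have h1 := dg_le A h0 hAle a
  have h2 : M2 A = dg A a + ∑ b ∈ Finset.univ.erase a, dg A b := by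
    unfold M2; rw [← Finset.sum_erase_add _ _ (Finset.mem_univ a)]; ring
  have h3 : 2 * ((Fintype.card V : ℤ) - 1) ≤ ∑ b ∈ Finset.univ.erase a, dg A b := by
    calc 2 * ((Fintype.card V : ℤ) - 1) = ∑ b ∈ Finset.univ.erase a, (2 : ℤ) := by
          rw [Finset.sum_const, Finset.card_erase_of_mem (Finset.mem_univ a), Finset.card_univ]
          have : 1 ≤ Fintype.card V := Fintype.card_pos_iff.2 ⟨a⟩
          simp only [nsmul_eq_mul]
          push_cast [Nat.cast_sub this]; ring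
      _ ≤ _ := Finset.sum_le_sum fun b _ => hmin b
  linarith

theorem e2_nonneg (A : V → V → ℤ) (hAge : ∀ a b, 0 ≤ A a b) (T : Finset V) : 0 ≤ e2 A T :=
  Finset.sum_nonneg fun a _ => Finset.sum_nonneg fun b _ => hAge a b

theorem three_top (A : V → V → ℤ) (hA : ∀ a b, A a b = A b a) (h0 : ∀ a, A a a = 0)
    (hAge : ∀ a b, 0 ≤ A a b) (hAle : ∀ a b, A a b ≤ 1) (u p w : V) (hup : u ≠ p) (huw : u ≠ w)
    (hpw : p ≠ w) : 2 * (dg A u + dg A p + dg A w) - 6 ≤ M2 A := by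
  have h1 := e2_compl A hA {u, p, w}
  have h2 := e2_nonneg A hAge ({u, p, w} : Finset V)ᶜ
  have h3 : ∑ a ∈ ({u, p, w} : Finset V), dg A a = dg A u + dg A p + dg A w := by
    rw [Finset.sum_insert (by simp [hup, huw]), Finset.sum_insert (by simp [hpw]),
      Finset.sum_singleton]; ring
  have h4 : e2 A ({u, p, w} : Finset V) ≤ 6 := by
    unfold e2
    simp only [Finset.sum_insert (show u ∉ ({p, w} : Finset V) by simp [hup, huw]),
      Finset.sum_insert (show p ∉ ({w} : Finset V) by simp [hpw]), Finset.sum_singleton, h0]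
    have a1 := hAle u p
    have a2 := hAle u w
    have a3 := hAle p u
    have a4 := hAle p w
    have a5 := hAle w u
    have a6 := hAle w p
    linarith
  linarith

theorem abs_two (z d M : ℤ) (h1 : 6 * |z| ≤ M) (h2 : 6 * |d| ≤ M) :
    6 * (|z + d| + |z - d|) ≤ 2 * M := by
  rcases abs_cases z with ⟨a1, _⟩ | ⟨a1, _⟩ <;> rcases abs_cases d with ⟨a2, _⟩ | ⟨a2, _⟩ <;>
    rcases abs_cases (z + d) with ⟨a3, _⟩ | ⟨a3, _⟩ <;>
    rcases abs_cases (z - d) with ⟨a4, _⟩ | ⟨a4, _⟩ <;> rw [a3, a4] <;> rw [a1] at h1 <;>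
    rw [a2] at h2 <;> linarith

theorem abs_four (z d t M : ℤ) (hd : 0 ≤ d) (ht : 0 ≤ t) (h1 : 6 * |z| ≤ M) (h2 : 6 * d ≤ M)
    (h3 : 6 * t ≤ M) (h4 : 3 * (|z| + d + t) ≤ M) :
    6 * (|z + d + t| + |z + d - t| + |z - d + t| + |z - d - t|) ≤ 4 * M := by
  rcases abs_cases z with ⟨a1, _⟩ | ⟨a1, _⟩ <;>
    rcases abs_cases (z + d + t) with ⟨a3, _⟩ | ⟨a3, _⟩ <;>
    rcases abs_cases (z + d - t) with ⟨a4, _⟩ | ⟨a4, _⟩ <;>
    rcases abs_cases (z - d + t) with ⟨a5, _⟩ | ⟨a5, _⟩ <;>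
    rcases abs_cases (z - d - t) with ⟨a6, _⟩ | ⟨a6, _⟩ <;> rw [a3, a4, a5, a6] <;>
    rw [a1] at h1 h4 <;> linarith

theorem caseA_even (A : V → V → ℤ) (hA : ∀ a b, A a b = A b a) (h0 : ∀ a, A a a = 0)
    (hA01 : ∀ a b, A a b = 0 ∨ A a b = 1) (hmin : ∀ a, 2 ≤ dg A a) (u p : V) (hup : u ≠ p)
    (hmaxu : ∀ a, dg A a ≤ dg A u) (hmaxp : ∀ a, a ≠ u → dg A a ≤ dg A p)
    (hn : Even (Fintype.card V)) (hn4 : 4 ≤ Fintype.card V)
    (hB : 6 * (dg A u - dg A p) ≤ M2 A) : Good A := by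
  classical
  have hAge : ∀ a b, 0 ≤ A a b := fun a b => by rcases hA01 a b with h | h <;> simp [h]
  have hAle : ∀ a b, A a b ≤ 1 := fun a b => by rcases hA01 a b with h | h <;> simp [h]
  set X : Finset V := (Finset.univ.erase u).erase p with hX
  have hmemX : ∀ x, x ∈ X ↔ x ≠ p ∧ x ≠ u := by intro x; simp [hX]
  have hXc : X.card = Fintype.card V - 2 := by
    rw [hX, Finset.card_erase_of_mem (by simp [hup.symm]), Finset.card_erase_of_mem (by simp),
      Finset.card_univ]; omega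
  have hXne : X.Nonempty := Finset.card_pos.1 (by omega)
  obtain ⟨w, hw, hwmax⟩ := Finset.exists_max_image X (dg A) hXne
  have hw' := (hmemX w).1 hw
  obtain ⟨hev, -⟩ := exists_sorted (dg A) X.card X (dg A w) rfl (hmin w)
    (fun a ha => ⟨hmin a, hwmax a ha⟩)
  obtain ⟨l, l1, l2, l3⟩ := hev (by
    rw [hXc]; obtain ⟨k, hk⟩ := hn; exact ⟨k - 1, by omega⟩)
  obtain ⟨ε, st, sum, hQ, hS⟩ := greedy_Q A hA h0 hAge (dg A) l ∅ 0 St.zero l1 (by simp)
  have hQ0 : Q A (0 : V → ℤ) = 0 := by simp [Q]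
  have hS0 : S (dg A) (0 : V → ℤ) = 0 := by simp [S]
  rw [hQ0] at hQ
  rw [hS0, abs_zero, zero_add] at hS
  have h3 := three_top A hA h0 hAge hAle u p w hup hw'.2.symm hw'.1.symm
  have hup' := hmaxu p
  have hpw' := hmaxp w hw'.2
  have hz : 6 * |S (dg A) ε| ≤ M2 A := by linarith
  have hd : 6 * |dg A u - dg A p| ≤ M2 A := by rw [abs_of_nonneg (by linarith)]; exact hB
  have hab := abs_two _ _ _ hz hd
  obtain ⟨σ, hσ, hle⟩ : ∃ σ : ℤ, (σ = 1 ∨ σ = -1) ∧
      3 * Q A (ε + pr u p σ) + 6 * |S (dg A) (ε + pr u p σ)| ≤ M2 A := by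
    have hpos := hAge u p
    by_contra hcon
    push Not at hcon
    have c1 := hcon 1 (Or.inl rfl)
    have c2 := hcon (-1) (Or.inr rfl)
    rw [Q_add_pr A hA h0 ε u p 1 (Or.inl rfl), S_add, S_pr] at c1
    rw [Q_add_pr A hA h0 ε u p (-1) (Or.inr rfl), S_add, S_pr] at c2
    have e1 : S (dg A) ε + 1 * (dg A u - dg A p) = S (dg A) ε + (dg A u - dg A p) := by ring
    have e2 : S (dg A) ε + -1 * (dg A u - dg A p) = S (dg A) ε - (dg A u - dg A p) := by ring
    rw [e1] at c1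
    rw [e2] at c2
    linarith
  rw [Finset.empty_union, l2] at st
  have st' := st.add_pr hup (by simp [hX]) (by simp [hX]) hσ
  refine good_of_signs A hA _ (fun a => st'.on a ?_) ?_ hle
  · simp only [Finset.mem_insert, hmemX]; tauto
  · simp only [Pi.add_apply, Finset.sum_add_distrib, sum_pr, sum]
    simp

theorem caseA_odd (A : V → V → ℤ) (hA : ∀ a b, A a b = A b a) (h0 : ∀ a, A a a = 0)
    (hA01 : ∀ a b, A a b = 0 ∨ A a b = 1) (hmin : ∀ a, 2 ≤ dg A a) (u p : V) (hup : u ≠ p)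
    (hmaxu : ∀ a, dg A a ≤ dg A u) (hmaxp : ∀ a, a ≠ u → dg A a ≤ dg A p)
    (hn : Odd (Fintype.card V)) (hn7 : 7 ≤ Fintype.card V)
    (hB : 6 * (dg A u - dg A p) ≤ M2 A) : Good A := by
  classical
  have hAge : ∀ a b, 0 ≤ A a b := fun a b => by rcases hA01 a b with h | h <;> simp [h]
  have hAle : ∀ a b, A a b ≤ 1 := fun a b => by rcases hA01 a b with h | h <;> simp [h]
  set X : Finset V := (Finset.univ.erase u).erase p with hX
  have hmemX : ∀ x, x ∈ X ↔ x ≠ p ∧ x ≠ u := by intro x; simp [hX]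
  have hXc : X.card = Fintype.card V - 2 := by
    rw [hX, Finset.card_erase_of_mem (by simp [hup.symm]), Finset.card_erase_of_mem (by simp),
      Finset.card_univ]; omega
  have hXne : X.Nonempty := Finset.card_pos.1 (by omega)
  obtain ⟨w, hw, hwmax⟩ := Finset.exists_max_image X (dg A) hXne
  have hw' := (hmemX w).1 hw
  obtain ⟨-, hod⟩ := exists_sorted (dg A) X.card X (dg A w) rfl (hmin w)
    (fun a ha => ⟨hmin a, hwmax a ha⟩)
  obtain ⟨l, t, l1, l2, l3, l4, l5, l6⟩ := hod (by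
    rw [hXc]; obtain ⟨k, hk⟩ := hn; exact ⟨k - 1, by omega⟩)
  obtain ⟨ε, st, sum, hQ, hS⟩ := greedy_Q A hA h0 hAge (dg A) l ∅ 0 St.zero l1 (by simp)
  have hQ0 : Q A (0 : V → ℤ) = 0 := by simp [Q]
  have hS0 : S (dg A) (0 : V → ℤ) = 0 := by simp [S]
  rw [hQ0] at hQ
  rw [hS0, abs_zero, zero_add] at hS
  have ht' := (hmemX t).1 l3
  have htmin : ∀ a, dg A t ≤ dg A a := by
    intro a
    by_cases h1 : a = p
    · rw [h1]; exact hmaxp t ht'.2
    by_cases h2 : a = u
    · rw [h2]; exact hmaxu t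
    exact l5 a ((hmemX a).2 ⟨h1, h2⟩)
  have ht6 : 6 * dg A t ≤ M2 A := by
    have h1 : (Fintype.card V : ℤ) * dg A t ≤ M2 A := by
      calc (Fintype.card V : ℤ) * dg A t = ∑ a : V, dg A t := by simp
        _ ≤ _ := Finset.sum_le_sum fun a _ => htmin a
    have h2 : (7 : ℤ) ≤ Fintype.card V := by exact_mod_cast hn7
    have h3 := hmin t
    nlinarith
  have h3 := three_top A hA h0 hAge hAle u p w hup hw'.2.symm hw'.1.symm
  have h3d := three_dg A h0 hAle hmin u
  have hup' := hmaxu p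
  have hpw' := hmaxp w hw'.2
  have hmt := hmin t
  have hz : 6 * |S (dg A) ε| ≤ M2 A := by linarith
  have hab := abs_four (S (dg A) ε) (dg A u - dg A p) (dg A t) (M2 A) (by linarith) (by linarith)
    hz hB ht6 (by linarith)
  obtain ⟨σ, τ, hσ, hτ, hle⟩ : ∃ σ τ : ℤ, (σ = 1 ∨ σ = -1) ∧ (τ = 1 ∨ τ = -1) ∧
      3 * Q A (ε + pr u p σ + Pi.single t τ) + 6 * |S (dg A) (ε + pr u p σ + Pi.single t τ)|
        ≤ M2 A := by
    have hpos := hAge u p
    by_contra hcon
    push Not at hcon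
    have hL : ∀ σ : ℤ, L A (ε + pr u p σ) t = L A ε t + σ * (A t u - A t p) := by
      intro σ
      rw [← L_pr A u p t σ]
      unfold L
      rw [← Finset.sum_add_distrib]
      exact Finset.sum_congr rfl fun b _ => by simp only [Pi.add_apply]; ring
    have c1 := hcon 1 1 (Or.inl rfl) (Or.inl rfl)
    have c2 := hcon 1 (-1) (Or.inl rfl) (Or.inr rfl)
    have c3 := hcon (-1) 1 (Or.inr rfl) (Or.inl rfl)
    have c4 := hcon (-1) (-1) (Or.inr rfl) (Or.inr rfl)
    rw [Q_add_single A hA h0, Q_add_pr A hA h0 ε u p _ (Or.inl rfl), S_add, S_add, S_pr,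
      S_single, hL] at c1 c2
    rw [Q_add_single A hA h0, Q_add_pr A hA h0 ε u p _ (Or.inr rfl), S_add, S_add, S_pr,
      S_single, hL] at c3 c4
    have e1 : S (dg A) ε + 1 * (dg A u - dg A p) + dg A t * 1 =
      S (dg A) ε + (dg A u - dg A p) + dg A t := by ring
    have e2 : S (dg A) ε + 1 * (dg A u - dg A p) + dg A t * -1 =
      S (dg A) ε + (dg A u - dg A p) - dg A t := by ring
    have e3 : S (dg A) ε + -1 * (dg A u - dg A p) + dg A t * 1 =
      S (dg A) ε - (dg A u - dg A p) + dg A t := by ring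
    have e4 : S (dg A) ε + -1 * (dg A u - dg A p) + dg A t * -1 =
      S (dg A) ε - (dg A u - dg A p) - dg A t := by ring
    rw [e1] at c1
    rw [e2] at c2
    rw [e3] at c3
    rw [e4] at c4
    linarith
  rw [Finset.empty_union] at st
  have hmemf : ∀ x, x ∈ flat l → x ∈ X := fun x hx => by
    rw [← l4]; exact Finset.mem_insert_of_mem (List.mem_toFinset.2 hx)
  have hpf : p ∉ (flat l).toFinset := fun h => by
    have := hmemf p (List.mem_toFinset.1 h); simp [hX] at this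
  have huf : u ∉ (flat l).toFinset := fun h => by
    have := hmemf u (List.mem_toFinset.1 h); simp [hX] at this
  have st' := st.add_pr hup huf hpf hσ
  have st'' := st'.add_single (a := t) (by
    simp only [Finset.mem_insert, not_or, List.mem_toFinset]; exact ⟨ht'.2, ht'.1, l2⟩) hτ
  refine good_of_signs A hA _ (fun a => st''.on a ?_) ?_ hle
  · by_cases h1 : a = p
    · simp [h1]
    by_cases h2 : a = u
    · simp [h2]
    have h3 : a ∈ X := (hmemX a).2 ⟨h1, h2⟩
    rw [← l4, Finset.mem_insert] at h3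
    simp only [Finset.mem_insert]; tauto
  · simp only [Pi.add_apply, Finset.sum_add_distrib, sum_pr, sum]
    rcases hτ with rfl | rfl <;> simp

end Pool.Agent.Helper29.Bisect
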