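import Mathlib

/-!
# The numeric lemma for judicious bisections (minimum degree two)
-/

namespace Pool.Agent.Helper29.Bisect

/-- Numeric core, in the variables `D = du - dp`, `q = dp - 2`, `ν = νM + νJ`. -/
theorem numeric_aux (h o η q νM νJ j z r EM EJ D : ℤ)
    (ho0 : 0 ≤ o) (ho1 : o ≤ 1) (hη0 : 0 ≤ η) (hη1 : η ≤ 1) (hq : 0 ≤ q)
    (hνM : 0 ≤ νM) (hνJ : 0 ≤ νJ) (hj : 0 ≤ j)
    (hEM : 0 ≤ EM) (hEJ : 0 ≤ EJ)
    (hr : r ≤ z) (hr2 : r + η ≤ q + 2)
    (hN : D + νM + νJ + q + 2 - η = 2 * h + o)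
    (c1 : η + z + j + EJ + νJ ≤ EM + νM + q + 2) (c2 : j ≤ EJ + νJ)
    (c4 : EM + EJ + 2 * (νM + νJ) + 4 * q + 9 ≤ 3 * D + 2 * η)
    (hcase : j + z + 1 ≤ h ∨
      (2 * η - 2 * (νM + νJ) - (q + 2) + 3 * h + 2 * EJ + 3 * νJ + 1 ≤ EM)) :
    3 * (q * EM + (q + 2 * o) ^ 2) ≤
      D * (η + 5 * (νM + νJ) + 7 * (q + 2) + EM + EJ - 3 * j - 3 * r) := by
  have hD : q + 2 ≤ D := by nlinarith
  rcases hcase with hR1 | hR2
  · by_cases hDq : 3 * q ≤ D
    · -- case (1)
      have a1 := mul_nonneg (sub_nonneg.2 c1) (sub_nonneg.2 hDq)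
      have a2 : 0 ≤ (EJ + νJ - j) * (2 * D - 3 * q) :=
        mul_nonneg (by linarith) (by linarith)
      have a3 : 0 ≤ (h - (j + z + 1)) * q := mul_nonneg (by linarith) hq
      have a4 : 0 ≤ (z - r) * (D + 3 * q) := mul_nonneg (by linarith) (by linarith)
      have a5 : 0 ≤ (q + 2 - (r + η)) * (2 * D - 3 * q) :=
        mul_nonneg (by linarith) (by linarith)
      have a6 : 0 ≤ νJ * (D - 3 * q) := mul_nonneg hνJ (by linarith)
      have a7 : 0 ≤ νM * D := mul_nonneg hνM (by linarith)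
      have a8 : 0 ≤ νJ * D := mul_nonneg hνJ (by linarith)
      have a9 : 0 ≤ q * D := mul_nonneg hq (by linarith)
      have ho : o = 0 ∨ o = 1 := by omega
      have hη : η = 0 ∨ η = 1 := by omega
      have hh : h = (D + νM + νJ + q + 2 - η - o) / 2 := by omega
      have hh2 : q * (2 * h) = q * (D + νM + νJ + q + 2 - η - o) := by
        rw [show 2 * h = D + νM + νJ + q + 2 - η - o by linarith]
      rcases ho with rfl | rfl <;> rcases hη with rfl | rfl <;> nlinarith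
    · -- case (3)
      push Not at hDq
      have b1 : 0 ≤ (3 * q - D) * (3 * D + 2 * η - (EM + EJ + 2 * (νM + νJ) + 4 * q + 9)) :=
        mul_nonneg (by linarith) (by linarith)
      have b2 : 0 ≤ (EJ + νJ - j) * q := mul_nonneg (by linarith) hq
      have b3 : 0 ≤ (h - (j + z + 1)) * (D - q) := mul_nonneg (by linarith) (by linarith)
      have b4 : 0 ≤ (z - r) * (D - q) := mul_nonneg (by linarith) (by linarith)
      have b5 : 0 ≤ (q + 2 - (r + η)) * q := mul_nonneg (by linarith) hq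
      have b6 : 0 ≤ νJ * (3 * q - D) := mul_nonneg hνJ (by linarith)
      have b6' : 0 ≤ νM * (3 * q - D) := mul_nonneg hνM (by linarith)
      have b7 : 0 ≤ νM * D := mul_nonneg hνM (by linarith)
      have b8 : 0 ≤ νJ * D := mul_nonneg hνJ (by linarith)
      have b7' : 0 ≤ νM * q := mul_nonneg hνM (by linarith)
      have b8' : 0 ≤ νJ * q := mul_nonneg hνJ (by linarith)
      have b9 := sq_nonneg (D - 2 * q)
      have b10 := sq_nonneg q
      have ho : o = 0 ∨ o = 1 := by omega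
      have hη : η = 0 ∨ η = 1 := by omega
      have hh2 : (D - q) * (2 * h) = (D - q) * (D + νM + νJ + q + 2 - η - o) := by
        rw [show 2 * h = D + νM + νJ + q + 2 - η - o by linarith]
      rcases ho with rfl | rfl <;> rcases hη with rfl | rfl <;> nlinarith
  · -- case (2)
    have hh1 : 2 * h = D + νM + νJ + q + 2 - η - o := by linarith
    -- x = EJ + νJ
    have hx : 6 * (EJ + νJ) + 3 * (νM + νJ) + 9 * (q + 2) + 4 ≤ 3 * D + 3 * η + 3 * o := by
      linarith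
    have hDq : 3 * q ≤ D := by linarith
    have a1 : 0 ≤ (EM - (2 * η - 2 * (νM + νJ) - (q + 2) + 3 * h + 2 * EJ + 3 * νJ + 1)) *
        (D - 3 * q) := mul_nonneg (by linarith) (by linarith)
    have a2 : 0 ≤ (EJ + νJ - j) * D := mul_nonneg (by linarith) (by linarith)
    have a3 : 0 ≤ (3 * D + 3 * η + 3 * o - (6 * (EJ + νJ) + 3 * (νM + νJ) + 9 * (q + 2) + 4)) * q :=
      mul_nonneg (by linarith) hq
    have a4 : 0 ≤ (q + 2 - (r + η)) * D := mul_nonneg (by linarith) (by linarith)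
    have a6 : 0 ≤ νJ * (D - 3 * q) := mul_nonneg hνJ (by linarith)
    have a7 : 0 ≤ νM * D := mul_nonneg hνM (by linarith)
    have a8 : 0 ≤ νJ * D := mul_nonneg hνJ (by linarith)
    have a9 : 0 ≤ q * (D - 3 * q) := mul_nonneg hq (by linarith)
    have a10 : 0 ≤ D * (D - 3 * q) := mul_nonneg (by linarith) (by linarith)
    have a11 : 0 ≤ (D - 3 * q) * (η - (νM + νJ) + (q + 2) + 3 * D - 3 * o + 2) :=
      mul_nonneg (by linarith) (by linarith)
    have hh2 : (D - 3 * q) * (2 * h) = (D - 3 * q) * (D + νM + νJ + q + 2 - η - o) := by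
      rw [hh1]
    have hq2 := sq_nonneg q
    have ho : o = 0 ∨ o = 1 := by omega
    have hη : η = 0 ∨ η = 1 := by omega
    rcases ho with rfl | rfl <;> rcases hη with rfl | rfl <;> nlinarith

/-- The full numeric lemma: either the second moment criterion holds, or one of the two direct
constructions applies. -/
theorem numeric (h o η q νM νJ j z r EM EJ D : ℤ)
    (ho0 : 0 ≤ o) (ho1 : o ≤ 1) (hη0 : 0 ≤ η) (hη1 : η ≤ 1) (hq : 0 ≤ q)
    (hνM : 0 ≤ νM) (hνJ : 0 ≤ νJ) (hj : 0 ≤ j)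
    (hEM : 0 ≤ EM) (hEJ : 0 ≤ EJ) (hz : 0 ≤ z)
    (hr : r ≤ z) (hr2 : r + η ≤ q + 2)
    (hN : D + νM + νJ + q + 2 - η = 2 * h + o)
    (c1 : η + z + j + EJ + νJ ≤ EM + νM + q + 2) (c2 : j ≤ EJ + νJ)
    (c4 : EM + EJ + 2 * (νM + νJ) + 4 * q + 9 ≤ 3 * D + 2 * η) :
    (3 * (q * EM + (q + 2 * o) ^ 2) ≤
      D * (η + 5 * (νM + νJ) + 7 * (q + 2) + EM + EJ - 3 * j - 3 * r) ∧
      0 < D ∧ 0 < η + 5 * (νM + νJ) + 7 * (q + 2) + EM + EJ - 3 * j - 3 * r) ∨
    (h ≤ j ∧ 3 * D + 4 * (q + 2) + 2 * (νM + νJ) - 2 * η + EM + EJ ≤ 3 * (D + q + 2) + 6 * h ∧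
      6 * h ≤ 3 * D + 4 * (q + 2) + 2 * (νM + νJ) - 2 * η + EM + EJ) ∨
    (j + 1 ≤ h ∧ h ≤ j + z ∧
      3 * D + 4 * (q + 2) + 2 * (νM + νJ) - 2 * η + EM + EJ ≤
        3 * (D + q + 2) + 3 * (h + EJ + νJ) ∧
      6 * h ≤ 3 * D + 4 * (q + 2) + 2 * (νM + νJ) - 2 * η + EM + EJ) := by
  have hD : q + 2 ≤ D := by linarith
  have hs : 4 * (νM + νJ + q + 2) ≤
      η + 5 * (νM + νJ) + 7 * (q + 2) + EM + EJ - 3 * j - 3 * r := by linarith
  by_cases hjh : h ≤ j
  · right; left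
    refine ⟨hjh, by linarith, by linarith⟩
  · have hjh' : j + 1 ≤ h := by omega
    by_cases hR : j + z + 1 ≤ h
    · left
      exact ⟨numeric_aux h o η q νM νJ j z r EM EJ D ho0 ho1 hη0 hη1 hq hνM hνJ hj hEM hEJ hr hr2
        hN c1 c2 c4 (Or.inl hR), by linarith, by linarith⟩
    · by_cases hM : 3 * D + 4 * (q + 2) + 2 * (νM + νJ) - 2 * η + EM + EJ ≤
        3 * (D + q + 2) + 3 * (h + EJ + νJ)
      · by_cases h6 : 6 * h ≤ 3 * D + 4 * (q + 2) + 2 * (νM + νJ) - 2 * η + EM + EJ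
        · right; right
          exact ⟨hjh', by omega, hM, h6⟩
        · left
          refine ⟨?_, by linarith, by linarith⟩
          have hE : EM + EJ + q + 3 + η + 3 * o ≤ νM + νJ := by omega
          have e1 : 0 ≤ D * (η + 5 * (νM + νJ) + 7 * (q + 2) + EM + EJ - 3 * j - 3 * r
              - 4 * (νM + νJ + q + 2)) := mul_nonneg (by linarith) (by linarith)
          have e2 : 0 ≤ (D - (q + 2)) * (νM + νJ + q + 2) := mul_nonneg (by linarith) (by linarith)
          have e3 : 0 ≤ q * (νM + νJ - (EM + EJ + q + 3 + η + 3 * o)) :=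
            mul_nonneg hq (by linarith)
          have e4 : 0 ≤ q * EJ := mul_nonneg hq hEJ
          have e5 : 0 ≤ q * η := mul_nonneg hq hη0
          have e6 : 0 ≤ q * νM := mul_nonneg hq hνM
          have e7 : 0 ≤ q * νJ := mul_nonneg hq hνJ
          have ho : o = 0 ∨ o = 1 := by omega
          rcases ho with rfl | rfl <;> nlinarith
      · left
        refine ⟨numeric_aux h o η q νM νJ j z r EM EJ D ho0 ho1 hη0 hη1 hq hνM hνJ hj hEM hEJ hr hr2
          hN c1 c2 c4 (Or.inr ?_), by linarith, by linarith⟩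
        push Not at hM
        have := Int.add_one_le_of_lt hM
        linarith

end Pool.Agent.Helper29.Bisect
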