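import Pool.Agent.Helper29.Bisect.Good
import Pool.Agent.Helper29.Bisect.Numeric

set_option linter.unusedSectionVars false

/-!
# The case of one dominating vertex
-/

namespace Pool.Agent.Helper29.Bisect

open Finset

variable {V : Type*} [Fintype V] [DecidableEq V]

/-- The direct construction `{u} ∪ A₀` with `A₀` independent. -/
theorem direct (A : V → V → ℤ) (hA : ∀ a b, A a b = A b a) (h0 : ∀ a, A a a = 0)
    (u : V) (A₀ : Finset V) (hu : u ∉ A₀) (hind : ∀ a ∈ A₀, ∀ b ∈ A₀, A a b = 0)
    (h1 : ∀ a, A a u ≤ 1) (h : ℤ) (hh : (A₀.card : ℤ) = h) (hcard : |2 * (h + 1) -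
      (Fintype.card V : ℤ)| ≤ 1) (hM1 : 6 * h ≤ M2 A)
    (hM2 : M2 A ≤ 3 * dg A u + 3 * ∑ a ∈ A₀, (dg A a - A a u)) : Good A := by
  have e : e2 A (insert u A₀) = 2 * ∑ a ∈ A₀, A a u := by
    unfold e2
    rw [Finset.sum_insert hu, Finset.sum_insert hu, h0]
    have h3 : ∑ a ∈ A₀, ∑ b ∈ insert u A₀, A a b = ∑ a ∈ A₀, A a u := by
      refine Finset.sum_congr rfl fun a ha => ?_
      rw [Finset.sum_insert hu, Finset.sum_eq_zero (fun b hb => hind a ha b hb), add_zero]
    have h4 : ∑ b ∈ A₀, A u b = ∑ a ∈ A₀, A a u :=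
      Finset.sum_congr rfl fun a _ => hA u a
    rw [h3, h4]; ring
  have hle : ∑ a ∈ A₀, A a u ≤ h := by
    rw [← hh]
    calc ∑ a ∈ A₀, A a u ≤ ∑ a ∈ A₀, (1 : ℤ) := Finset.sum_le_sum fun a _ => h1 a
      _ = A₀.card := by simp
  refine ⟨insert u A₀, ?_, by rw [e]; linarith, ?_⟩
  · rw [Finset.card_insert_of_notMem hu]
    push_cast
    rw [hh]; exact hcard
  · rw [e2_compl A hA, e, Finset.sum_insert hu]
    rw [Finset.sum_sub_distrib] at hM2
    linarith

/-- The centre of a leaf. -/
theorem exists_centre (A : V → V → ℤ) (hA01 : ∀ a b, A a b = 0 ∨ A a b = 1) (w u : V)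
    (hd : dg A w = 2) (hu : A w u = 1) :
    ∃ x, x ≠ u ∧ ∀ b, A w b = if b = u ∨ b = x then 1 else 0 := by
  have h1 : dg A w = ((Finset.univ.filter fun b => A w b = 1).card : ℤ) := by
    unfold dg
    rw [Finset.card_filter]
    push_cast
    refine Finset.sum_congr rfl fun b _ => ?_
    rcases hA01 w b with h | h <;> simp [h]
  have h2 : (Finset.univ.filter fun b => A w b = 1).card = 2 := by
    have := h1.symm.trans hd
    exact_mod_cast this
  have hmem : u ∈ Finset.univ.filter fun b => A w b = 1 := by simp [hu]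
  have h3 : ((Finset.univ.filter fun b => A w b = 1).erase u).card = 1 := by
    rw [Finset.card_erase_of_mem hmem, h2]
  obtain ⟨x, hx⟩ := Finset.card_eq_one.1 h3
  have hx' : ∀ b, (b ≠ u ∧ A w b = 1) ↔ b = x := by
    intro b
    have : b ∈ (Finset.univ.filter fun b => A w b = 1).erase u ↔ b ∈ ({x} : Finset V) := by
      rw [hx]
    simpa using this
  refine ⟨x, ((hx' x).2 rfl).1, fun b => ?_⟩
  by_cases h4 : b = u
  · simp [h4, hu]
  · by_cases h5 : b = x
    · have := ((hx' x).2 rfl).2
      simp [h5, this]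
    · rw [if_neg (by tauto)]
      rcases hA01 w b with h | h
      · exact h
      · exact absurd ((hx' b).1 ⟨h4, h⟩) h5

theorem sum_flat (l : List (V × V)) (hl : (flat l).Nodup) (f : V → ℤ) :
    ∑ x ∈ (flat l).toFinset, f x = (l.map fun e => f e.1 + f e.2).sum := by
  rw [List.sum_toFinset f hl]
  clear hl
  induction l with
  | nil => simp
  | cons e l ih =>
    simp only [flat_cons, List.map_cons, List.sum_cons, ih]; ring

theorem card_flat (l : List (V × V)) (hl : (flat l).Nodup) :
    ((flat l).toFinset.card : ℤ) = 2 * l.length := by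
  rw [List.toFinset_card_of_nodup hl, flat_length]; push_cast; ring

theorem list_sum_le {α : Type*} (l : List α) (f g : α → ℤ) (h : ∀ x ∈ l, f x ≤ g x) :
    (l.map f).sum ≤ (l.map g).sum := by
  induction l with
  | nil => simp
  | cons a l ih =>
    simp only [List.map_cons, List.sum_cons]
    have h1 := h a (by simp)
    have h2 := ih fun x hx => h x (by simp [hx])
    linarith

theorem sum_sq_le (l : List (V × V)) (f : V × V → ℤ) (hf : ∀ e, 0 ≤ f e) :
    (l.map fun e => f e ^ 2).sum ≤ (l.map f).sum ^ 2 := by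
  induction l with
  | nil => simp
  | cons a l ih =>
    simp only [List.map_cons, List.sum_cons]
    have h1 := hf a
    have h2 := list_sum_nonneg l f fun e _ => hf e
    nlinarith [mul_nonneg h1 h2]

end Pool.Agent.Helper29.Bisect
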