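import Pool.Agent.Helper29.Bisect.CaseB

set_option linter.unusedSectionVars false

/-!
# The case of one dominating vertex: the structure and its counts
-/

namespace Pool.Agent.Helper29.Bisect

open Finset

variable {V : Type*} [Fintype V] [DecidableEq V]

/-- The decomposition used in the case of one dominating vertex. -/
structure Dat (A : V → V → ℤ) (u p : V) (Mx P : List (V × V)) (c : V → V)
    (I2 J R : Finset V) : Prop where
  ndM : (flat Mx).Nodup
  adjM : ∀ e ∈ Mx, A e.1 e.2 = 1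
  ndP : (flat P).Nodup
  ccP : ∀ e ∈ P, c e.1 ≠ c e.2
  flatP : ∀ x ∈ flat P, x ∈ I2 ∧ x ∉ R
  RI2 : R ⊆ I2
  I2cov : ∀ x ∈ I2, x ∈ R ∨ x ∈ flat P
  memM : ∀ x ∈ flat Mx, x ≠ u ∧ x ≠ p
  memI2 : ∀ x ∈ I2, x ≠ u ∧ x ≠ p ∧ x ∉ flat Mx ∧ x ∉ J
  memJ : ∀ x ∈ J, x ≠ u ∧ x ≠ p ∧ x ∉ flat Mx ∧ x ∉ I2
  cover : ∀ x, x = u ∨ x = p ∨ x ∈ flat Mx ∨ x ∈ I2 ∨ x ∈ J
  ind : ∀ a, (a ∈ I2 ∨ a ∈ J) → ∀ b, (b ∈ I2 ∨ b ∈ J) → A a b = 0
  I2d : ∀ w ∈ I2, dg A w = 2 ∧ A w u = 1
  Jp : ∀ w ∈ J, 2 ≤ dg A w - A w u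
  Jp' : ∀ w ∈ J, 1 ≤ (dg A w - 2) + (1 - A w u)
  cU : ∀ w ∈ I2, c w ≠ u ∧ (c w = p ∨ c w ∈ flat Mx) ∧ ∀ b, A w b = if b = u ∨ b = c w then 1 else 0
  Rc : ∀ a ∈ R, ∀ b ∈ R, c a = c b

theorem mem_flat_of_mem {l : List (V × V)} {e : V × V} (he : e ∈ l) :
    e.1 ∈ flat l ∧ e.2 ∈ flat l := by
  simp only [flat, List.mem_flatMap]
  exact ⟨⟨e, he, by simp⟩, ⟨e, he, by simp⟩⟩

theorem of_mem_flat {l : List (V × V)} {x : V} (hx : x ∈ flat l) :
    ∃ e ∈ l, x = e.1 ∨ x = e.2 := by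
  simp only [flat, List.mem_flatMap] at hx
  obtain ⟨e, he, hx⟩ := hx
  simp only [List.mem_cons, List.not_mem_nil, or_false] at hx
  exact ⟨e, he, hx⟩

theorem exists_dat (A : V → V → ℤ) (h0 : ∀ a, A a a = 0)
    (hA01 : ∀ a b, A a b = 0 ∨ A a b = 1) (hmin : ∀ a, 2 ≤ dg A a) (u p : V) :
    ∃ (Mx P : List (V × V)) (c : V → V) (I2 J R : Finset V), Dat A u p Mx P c I2 J R := by
  classical
  set B' : Finset V := (Finset.univ.erase u).erase p with hB'
  have hmemB : ∀ x, x ∈ B' ↔ x ≠ p ∧ x ≠ u := by intro x; simp [hB']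
  obtain ⟨Mx, hM1, hM2, hM3⟩ := exists_maximal (fun a b => A a b = 1) _ B' rfl
  set I := B' \ (flat Mx).toFinset with hI
  have hmemI : ∀ x, x ∈ I ↔ (x ≠ p ∧ x ≠ u) ∧ x ∉ flat Mx := by
    intro x; rw [hI, Finset.mem_sdiff, hmemB, List.mem_toFinset]
  have hIind : ∀ a ∈ I, ∀ b ∈ I, A a b = 0 := by
    intro a ha b hb
    rw [hI, Finset.mem_sdiff, List.mem_toFinset] at ha hb
    by_cases hab : a = b
    · rw [hab, h0]
    · rcases hA01 a b with h | h
      · exact h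
      · exact absurd h (hM3 a ha.1 b hb.1 ha.2 hb.2 hab)
  set I2 := I.filter (fun w => dg A w = 2 ∧ A w u = 1) with hI2
  set J := I.filter (fun w => ¬ (dg A w = 2 ∧ A w u = 1)) with hJ
  have hcex : ∀ w ∈ I2, ∃ x, x ≠ u ∧ ∀ b, A w b = if b = u ∨ b = x then 1 else 0 := by
    intro w hw
    rw [hI2, Finset.mem_filter] at hw
    exact exists_centre A hA01 w u hw.2.1 hw.2.2
  choose! c hcu hcN using hcex
  have hcU : ∀ w ∈ I2, c w = p ∨ c w ∈ flat Mx := by
    intro w hw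
    by_contra hcon
    rw [not_or] at hcon
    have h1 : c w ∈ I := (hmemI _).2 ⟨⟨hcon.1, hcu w hw⟩, hcon.2⟩
    have h2 : w ∈ I := by rw [hI2, Finset.mem_filter] at hw; exact hw.1
    have h3 := hIind w h2 _ h1
    rw [hcN w hw] at h3
    simp at h3
  obtain ⟨P, hP1, hP2, hP3⟩ := exists_maximal (fun a b => c a ≠ c b) _ I2 rfl
  have hfP : ∀ x ∈ flat P, x ∈ I2 := by
    intro x hx
    obtain ⟨e, he, rfl | rfl⟩ := of_mem_flat hx
    · exact (hP1 e he).1
    · exact (hP1 e he).2.1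
  have hfM : ∀ x ∈ flat Mx, x ∈ B' := by
    intro x hx
    obtain ⟨e, he, rfl | rfl⟩ := of_mem_flat hx
    · exact (hM1 e he).1
    · exact (hM1 e he).2.1
  have hI2I : ∀ x ∈ I2, x ∈ I := fun x hx => by rw [hI2, Finset.mem_filter] at hx; exact hx.1
  have hJI : ∀ x ∈ J, x ∈ I := fun x hx => by rw [hJ, Finset.mem_filter] at hx; exact hx.1
  have hJ' : ∀ w ∈ J, 2 ≤ dg A w - A w u ∧ 1 ≤ (dg A w - 2) + (1 - A w u) := by
    intro w hw
    have h1 := hmin w
    rw [hJ, Finset.mem_filter] at hw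
    by_cases h3 : dg A w = 2
    · have h4 : A w u ≠ 1 := fun h => hw.2 ⟨h3, h⟩
      rcases hA01 w u with h | h
      · omega
      · exact absurd h h4
    · rcases hA01 w u with h | h <;> omega
  refine ⟨Mx, P, c, I2, J, I2 \ (flat P).toFinset, ?_⟩
  exact
    { ndM := hM2
      adjM := fun e he => (hM1 e he).2.2
      ndP := hP2
      ccP := fun e he => (hP1 e he).2.2
      flatP := fun x hx => ⟨hfP x hx, by simp [hx]⟩
      RI2 := Finset.sdiff_subset
      I2cov := fun x hx => by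
        by_cases h : x ∈ flat P
        · exact Or.inr h
        · left; simp [hx, h]
      memM := fun x hx => by
        have := (hmemB x).1 (hfM x hx); exact ⟨this.2, this.1⟩
      memI2 := fun x hx => by
        have := (hmemI x).1 (hI2I x hx)
        refine ⟨this.1.2, this.1.1, this.2, fun h => ?_⟩
        rw [hJ, Finset.mem_filter] at h
        rw [hI2, Finset.mem_filter] at hx
        exact h.2 hx.2
      memJ := fun x hx => by
        have := (hmemI x).1 (hJI x hx)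
        refine ⟨this.1.2, this.1.1, this.2, fun h => ?_⟩
        rw [hI2, Finset.mem_filter] at h
        rw [hJ, Finset.mem_filter] at hx
        exact hx.2 h.2
      cover := fun x => by
        by_cases h1 : x = u
        · exact Or.inl h1
        by_cases h2 : x = p
        · exact Or.inr (Or.inl h2)
        by_cases h3 : x ∈ flat Mx
        · exact Or.inr (Or.inr (Or.inl h3))
        have h4 : x ∈ I := (hmemI x).2 ⟨⟨h2, h1⟩, h3⟩
        by_cases h5 : dg A x = 2 ∧ A x u = 1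
        · exact Or.inr (Or.inr (Or.inr (Or.inl (by rw [hI2, Finset.mem_filter]; exact ⟨h4, h5⟩))))
        · exact Or.inr (Or.inr (Or.inr (Or.inr (by rw [hJ, Finset.mem_filter]; exact ⟨h4, h5⟩))))
      ind := fun a ha b hb => hIind a (ha.elim (hI2I a) (hJI a)) b (hb.elim (hI2I b) (hJI b))
      I2d := fun w hw => by rw [hI2, Finset.mem_filter] at hw; exact hw.2
      Jp := fun w hw => (hJ' w hw).1
      Jp' := fun w hw => (hJ' w hw).2
      cU := fun w hw => ⟨hcu w hw, hcU w hw, hcN w hw⟩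
      Rc := fun a ha b hb => by
        rw [Finset.mem_sdiff, List.mem_toFinset] at ha hb
        by_contra hne
        exact hP3 a ha.1 b hb.1 ha.2 hb.2 (fun h => hne (by rw [h])) hne }

namespace Dat

variable {A : V → V → ℤ} {u p : V} {Mx P : List (V × V)} {c : V → V} {I2 J R : Finset V}

theorem univ_eq (D : Dat A u p Mx P c I2 J R) :
    (Finset.univ : Finset V) = insert u (insert p ((flat Mx).toFinset ∪ (I2 ∪ J))) := by
  ext x
  have := D.cover x
  simp only [Finset.mem_univ, Finset.mem_insert, Finset.mem_union, List.mem_toFinset, true_iff]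
  tauto

theorem disjIJ (D : Dat A u p Mx P c I2 J R) : Disjoint I2 J :=
  Finset.disjoint_left.2 fun x hx hx2 => (D.memI2 x hx).2.2.2 hx2

theorem disjM (D : Dat A u p Mx P c I2 J R) : Disjoint (flat Mx).toFinset (I2 ∪ J) := by
  rw [Finset.disjoint_left]
  intro x hx hx2
  rw [List.mem_toFinset] at hx
  rcases Finset.mem_union.1 hx2 with h | h
  · exact (D.memI2 x h).2.2.1 hx
  · exact (D.memJ x h).2.2.1 hx

theorem split (D : Dat A u p Mx P c I2 J R) (hup : u ≠ p) (f : V → ℤ) :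
    ∑ x, f x = f u + f p + (∑ x ∈ (flat Mx).toFinset, f x + (∑ x ∈ I2, f x + ∑ x ∈ J, f x)) := by
  have h1 : p ∉ (flat Mx).toFinset ∪ (I2 ∪ J) := by
    simp only [Finset.mem_union, List.mem_toFinset, not_or]
    exact ⟨fun h => (D.memM p h).2 rfl, fun h => (D.memI2 p h).2.1 rfl, fun h => (D.memJ p h).2.1 rfl⟩
  have h2 : u ∉ insert p ((flat Mx).toFinset ∪ (I2 ∪ J)) := by
    simp only [Finset.mem_insert, Finset.mem_union, List.mem_toFinset, not_or]
    exact ⟨hup, fun h => (D.memM u h).1 rfl, fun h => (D.memI2 u h).1 rfl,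
      fun h => (D.memJ u h).1 rfl⟩
  rw [D.univ_eq, Finset.sum_insert h2, Finset.sum_insert h1, Finset.sum_union D.disjM,
    Finset.sum_union D.disjIJ]
  ring

theorem card_eq (D : Dat A u p Mx P c I2 J R) (hup : u ≠ p) :
    (Fintype.card V : ℤ) = 2 + 2 * Mx.length + I2.card + J.card := by
  have h := D.split hup (fun _ => 1)
  have h2 := card_flat Mx D.ndM
  simp only [Finset.sum_const, nsmul_eq_mul, mul_one, Finset.card_univ] at h
  linarith

theorem card_I2 (D : Dat A u p Mx P c I2 J R) : (I2.card : ℤ) = 2 * P.length + R.card := by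
  have h1 : I2 = (flat P).toFinset ∪ R := by
    ext x
    simp only [Finset.mem_union, List.mem_toFinset]
    constructor
    · intro h; exact (D.I2cov x h).symm
    · rintro (h | h)
      · exact (D.flatP x h).1
      · exact D.RI2 h
  have h2 : Disjoint (flat P).toFinset R := by
    rw [Finset.disjoint_left]; intro x hx; rw [List.mem_toFinset] at hx; exact (D.flatP x hx).2
  rw [h1, Finset.card_union_of_disjoint h2]
  push_cast
  rw [card_flat P D.ndP]

theorem dg_u (D : Dat A u p Mx P c I2 J R) (hup : u ≠ p) (hA : ∀ a b, A a b = A b a)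
    (h0 : ∀ a, A a a = 0) :
    dg A u = A u p + 2 * Mx.length - ∑ x ∈ (flat Mx).toFinset, (1 - A x u) + I2.card + J.card -
      ∑ x ∈ J, (1 - A x u) := by
  have h2 := card_flat Mx D.ndM
  unfold dg
  rw [D.split hup, h0]
  rw [Finset.sum_congr rfl (s₂ := (flat Mx).toFinset) fun x _ => hA u x,
    Finset.sum_congr rfl (s₂ := J) fun x _ => hA u x,
    Finset.sum_congr rfl (s₂ := I2) (g := fun _ => (1 : ℤ)) fun x hx => by
      rw [hA u x]; exact (D.I2d x hx).2]
  simp only [Finset.sum_sub_distrib, Finset.sum_const, nsmul_eq_mul, mul_one]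
  rw [h2]; ring

theorem M2_eq (D : Dat A u p Mx P c I2 J R) (hup : u ≠ p) :
    M2 A = dg A u + dg A p + 2 * (2 * Mx.length + I2.card + J.card) +
      ∑ x ∈ (flat Mx).toFinset, (dg A x - 2) + ∑ x ∈ J, (dg A x - 2) := by
  have h2 := card_flat Mx D.ndM
  unfold M2
  rw [D.split hup]
  rw [Finset.sum_congr rfl (s₂ := I2) (g := fun _ => (2 : ℤ)) fun x hx => (D.I2d x hx).1]
  simp only [Finset.sum_sub_distrib, Finset.sum_const, nsmul_eq_mul]
  rw [h2]; ring

theorem dg_p (D : Dat A u p Mx P c I2 J R) (hup : u ≠ p) (hA : ∀ a b, A a b = A b a)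
    (h0 : ∀ a, A a a = 0) (hAge : ∀ a b, 0 ≤ A a b) :
    A u p + (∑ w ∈ I2, A p w + ∑ w ∈ J, A p w) ≤ dg A p := by
  have h1 : dg A p = A u p + (∑ x ∈ (flat Mx).toFinset, A p x +
      (∑ w ∈ I2, A p w + ∑ w ∈ J, A p w)) := by
    unfold dg
    rw [D.split hup, h0, hA p u]; ring
  have h2 : 0 ≤ ∑ x ∈ (flat Mx).toFinset, A p x := Finset.sum_nonneg fun x _ => hAge p x
  linarith

theorem dg_M (D : Dat A u p Mx P c I2 J R) (hup : u ≠ p) (hA : ∀ a b, A a b = A b a)
    (hAge : ∀ a b, 0 ≤ A a b) (x : V) (hx : x ∈ flat Mx) :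
    A x u + 1 + (∑ w ∈ I2, A x w + ∑ w ∈ J, A x w) ≤ dg A x := by
  have h1 : dg A x = A x u + A x p + (∑ y ∈ (flat Mx).toFinset, A x y +
      (∑ w ∈ I2, A x w + ∑ w ∈ J, A x w)) := by
    unfold dg
    rw [D.split hup]
  have h2 : 1 ≤ ∑ y ∈ (flat Mx).toFinset, A x y := by
    obtain ⟨e, he, hxe⟩ := of_mem_flat hx
    obtain ⟨y, hy, hxy⟩ : ∃ y ∈ (flat Mx).toFinset, A x y = 1 := by
      rcases hxe with rfl | rfl
      · exact ⟨e.2, List.mem_toFinset.2 (mem_flat_of_mem he).2, D.adjM e he⟩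
      · exact ⟨e.1, List.mem_toFinset.2 (mem_flat_of_mem he).1, by rw [hA]; exact D.adjM e he⟩
    have := Finset.single_le_sum (f := fun y => A x y) (fun i _ => hAge x i) hy
    linarith
  have h4 := hAge x p
  linarith

theorem dg_I (D : Dat A u p Mx P c I2 J R) (hup : u ≠ p) (w : V) (hw : w ∈ I2 ∨ w ∈ J) :
    dg A w = A w u + A w p + ∑ x ∈ (flat Mx).toFinset, A w x := by
  unfold dg
  rw [D.split hup, Finset.sum_eq_zero (s := I2) (fun b hb => D.ind w hw b (Or.inl hb)),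
    Finset.sum_eq_zero (s := J) (fun b hb => D.ind w hw b (Or.inr hb))]
  ring

theorem c1 (D : Dat A u p Mx P c I2 J R) (hup : u ≠ p) (hA : ∀ a b, A a b = A b a)
    (h0 : ∀ a, A a a = 0) (hAge : ∀ a b, 0 ≤ A a b) :
    A u p + I2.card + J.card + ∑ x ∈ J, (dg A x - 2) + ∑ x ∈ J, (1 - A x u) ≤
      ∑ x ∈ (flat Mx).toFinset, (dg A x - 2) + ∑ x ∈ (flat Mx).toFinset, (1 - A x u) + dg A p := by
  set MV := (flat Mx).toFinset with hMV
  have h1 : ∑ x ∈ MV, (∑ w ∈ I2, A x w + ∑ w ∈ J, A x w) ≤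
      ∑ x ∈ MV, (dg A x - 2) + ∑ x ∈ MV, (1 - A x u) := by
    rw [← Finset.sum_add_distrib]
    refine Finset.sum_le_sum fun x hx => ?_
    rw [hMV, List.mem_toFinset] at hx
    have := D.dg_M hup hA hAge x hx
    linarith
  have h2 : ∀ K : Finset V, (∀ w ∈ K, w ∈ I2 ∨ w ∈ J) →
      ∑ x ∈ MV, ∑ w ∈ K, A x w = ∑ w ∈ K, (dg A w - A w u) - ∑ w ∈ K, A p w := by
    intro K hK
    rw [Finset.sum_comm, ← Finset.sum_sub_distrib]
    refine Finset.sum_congr rfl fun w hw => ?_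
    rw [D.dg_I hup w (hK w hw), hA p w, Finset.sum_congr rfl fun x _ => hA x w]
    ring
  have h3 := D.dg_p hup hA h0 hAge
  have e1 : ∑ x ∈ I2, (dg A x - A x u) = I2.card := by
    rw [Finset.sum_congr rfl (g := fun _ => (1 : ℤ)) fun x hx => by
      rw [(D.I2d x hx).1, (D.I2d x hx).2]; norm_num]
    simp
  have e2 : ∑ x ∈ J, (dg A x - A x u) = J.card + ∑ x ∈ J, (dg A x - 2) + ∑ x ∈ J, (1 - A x u) := by
    simp only [Finset.sum_sub_distrib, Finset.sum_const, nsmul_eq_mul]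
    ring
  rw [Finset.sum_add_distrib, h2 I2 (fun w hw => Or.inl hw), h2 J (fun w hw => Or.inr hw),
    e1, e2] at h1
  linarith

theorem c2 (D : Dat A u p Mx P c I2 J R) :
    (J.card : ℤ) ≤ ∑ x ∈ J, (dg A x - 2) + ∑ x ∈ J, (1 - A x u) := by
  rw [← Finset.sum_add_distrib, ← nsmul_one, ← Finset.sum_const]
  exact Finset.sum_le_sum fun w hw => D.Jp' w hw

theorem hr2 (D : Dat A u p Mx P c I2 J R) (hup : u ≠ p) (hA : ∀ a b, A a b = A b a)
    (h0 : ∀ a, A a a = 0) (hAge : ∀ a b, 0 ≤ A a b) (hAle : ∀ a b, A a b ≤ 1)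
    (hmin : ∀ a, 2 ≤ dg A a) (hmaxp : ∀ a, a ≠ u → dg A a ≤ dg A p) :
    (R.card : ℤ) + A u p ≤ dg A p := by
  rcases R.eq_empty_or_nonempty with hRe | ⟨w0, hw0⟩
  · rw [hRe]; simp only [Finset.card_empty, Nat.cast_zero, zero_add]
    have := hAle u p; have := hmin p; omega
  · have h1 : (R.card : ℤ) ≤ ∑ w ∈ I2, A (c w0) w := by
      have e1 : ∑ w ∈ R, A (c w0) w = R.card := by
        rw [Finset.sum_congr rfl (g := fun _ => (1 : ℤ)) fun w hw => by
          rw [hA, (D.cU w (D.RI2 hw)).2.2, D.Rc w0 hw0 w hw]; simp]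
        simp
      rw [← e1]
      exact Finset.sum_le_sum_of_subset_of_nonneg D.RI2 (fun x _ _ => hAge _ x)
    have hJ0 : 0 ≤ ∑ w ∈ J, A (c w0) w := Finset.sum_nonneg fun x _ => hAge _ x
    rcases (D.cU w0 (D.RI2 hw0)).2.1 with h | h
    · have := D.dg_p hup hA h0 hAge
      rw [h] at h1 hJ0
      linarith
    · have h2 := D.dg_M hup hA hAge (c w0) h
      have h3 := hmaxp (c w0) (D.cU w0 (D.RI2 hw0)).1
      have h4 := hAge (c w0) u
      have h5 := hAle u p
      linarith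

end Dat

end Pool.Agent.Helper29.Bisect
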