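import Pool.Agent.Helper29.Bisect.CaseB2

set_option linter.unusedSectionVars false

/-!
# The case of one dominating vertex: conclusion
-/

namespace Pool.Agent.Helper29.Bisect

open Finset

variable {V : Type*} [Fintype V] [DecidableEq V]

/-- first direct construction -/
theorem Dat.direct1 {A : V → V → ℤ} {u p : V} {Mx P : List (V × V)} {c : V → V}
    {I2 J R : Finset V} (D : Dat A u p Mx P c I2 J R) (hup : u ≠ p)
    (hA : ∀ a b, A a b = A b a) (h0 : ∀ a, A a a = 0) (hAle : ∀ a b, A a b ≤ 1)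
    (h o : ℤ) (hN : 2 * Mx.length + I2.card + J.card = 2 * h + o) (hh : 0 ≤ h)
    (ho0 : 0 ≤ o) (ho1 : o ≤ 1) (hj : h ≤ J.card) (hM1 : 6 * h ≤ M2 A)
    (hM2 : M2 A ≤ 3 * dg A u + 6 * h) : Good A := by
  obtain ⟨A₀, hA0, hA0c⟩ := Finset.exists_subset_card_eq (s := J) (n := h.toNat) (by omega)
  have hcard : (A₀.card : ℤ) = h := by rw [hA0c]; omega
  have h2 : 2 * h ≤ ∑ a ∈ A₀, (dg A a - A a u) := by
    rw [← hcard]
    calc 2 * (A₀.card : ℤ) = ∑ a ∈ A₀, (2 : ℤ) := by simp [mul_comm]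
      _ ≤ _ := Finset.sum_le_sum fun a ha => D.Jp a (hA0 ha)
  refine direct A hA h0 u A₀ (fun h => (D.memJ u (hA0 h)).1 rfl)
    (fun a ha b hb => D.ind a (Or.inr (hA0 ha)) b (Or.inr (hA0 hb))) (fun a => hAle a u) h hcard
    ?_ hM1 (by linarith)
  have := D.card_eq hup
  rw [this, abs_le]; constructor <;> linarith

/-- second direct construction -/
theorem Dat.direct2 {A : V → V → ℤ} {u p : V} {Mx P : List (V × V)} {c : V → V}
    {I2 J R : Finset V} (D : Dat A u p Mx P c I2 J R) (hup : u ≠ p)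
    (hA : ∀ a b, A a b = A b a) (h0 : ∀ a, A a a = 0) (hAle : ∀ a b, A a b ≤ 1)
    (h o : ℤ) (hN : 2 * Mx.length + I2.card + J.card = 2 * h + o)
    (ho0 : 0 ≤ o) (ho1 : o ≤ 1) (hj : J.card + 1 ≤ h) (hj2 : h ≤ J.card + I2.card)
    (hM1 : 6 * h ≤ M2 A)
    (hM2 : M2 A ≤ 3 * dg A u + 3 * (h + ∑ x ∈ J, (dg A x - 2) + ∑ x ∈ J, (1 - A x u))) :
    Good A := by
  obtain ⟨A₂, hA2, hA2c⟩ := Finset.exists_subset_card_eq (s := I2) (n := (h - J.card).toNat)
    (by omega)
  have hcard2 : (A₂.card : ℤ) = h - J.card := by rw [hA2c]; omega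
  have hdisj : Disjoint J A₂ := by
    rw [Finset.disjoint_left]
    intro x hx hx2
    exact (D.memJ x hx).2.2.2 (hA2 hx2)
  have hmem : ∀ x ∈ J ∪ A₂, x ∈ I2 ∨ x ∈ J := by
    intro x hx
    rcases Finset.mem_union.1 hx with h | h
    · exact Or.inr h
    · exact Or.inl (hA2 h)
  have hcard : ((J ∪ A₂).card : ℤ) = h := by
    rw [Finset.card_union_of_disjoint hdisj]; push_cast; rw [hcard2]; ring
  have h2 : ∑ a ∈ J ∪ A₂, (dg A a - A a u) = h + ∑ x ∈ J, (dg A x - 2) + ∑ x ∈ J, (1 - A x u) := by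
    rw [Finset.sum_union hdisj]
    have e1 : ∑ x ∈ A₂, (dg A x - A x u) = A₂.card := by
      rw [Finset.sum_congr rfl (g := fun _ => (1 : ℤ)) fun x hx => by
        rw [(D.I2d x (hA2 hx)).1, (D.I2d x (hA2 hx)).2]; norm_num]
      simp
    have e2 : ∑ x ∈ J, (dg A x - A x u) =
        J.card + ∑ x ∈ J, (dg A x - 2) + ∑ x ∈ J, (1 - A x u) := by
      simp only [Finset.sum_sub_distrib, Finset.sum_const, nsmul_eq_mul]
      ring
    rw [e1, e2, hcard2]; ring
  refine direct A hA h0 u (J ∪ A₂) ?_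
    (fun a ha b hb => D.ind a (hmem a ha) b (hmem b hb)) (fun a => hAle a u) h hcard
    ?_ hM1 (by rw [h2]; exact hM2)
  · intro h
    rcases hmem u h with h | h
    · exact (D.memI2 u h).1 rfl
    · exact (D.memJ u h).1 rfl
  · have := D.card_eq hup
    rw [this, abs_le]; constructor <;> linarith

theorem list_sum_affine (l : List (V × V)) (α β : ℤ) (f : V → ℤ) :
    (l.map fun e => α + β * (f e.1 + f e.2)).sum =
      α * l.length + β * (l.map fun e => f e.1 + f e.2).sum := by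
  induction l with
  | nil => simp
  | cons e l ih =>
    simp only [List.map_cons, List.sum_cons, List.length_cons, ih]
    push_cast; ring

/-- last phase: place the leaf pairs and conclude -/
theorem Dat.finish {A : V → V → ℤ} {u p : V} {Mx P : List (V × V)} {c : V → V}
    {I2 J R : Finset V} (D : Dat A u p Mx P c I2 J R)
    (hA : ∀ a b, A a b = A b a) (h0 : ∀ a, A a a = 0) (U : Finset V) (ε : V → ℤ)
    (st : St U ε) (hu : u ∈ U) (hp : p ∈ U) (hM : ∀ x ∈ flat Mx, x ∈ U) (hJ : ∀ x ∈ J, x ∈ U)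
    (hR : ∀ x ∈ R, x ∈ U) (hPU : ∀ x ∈ flat P, x ∉ U) (hsum : |∑ x, ε x| ≤ 1)
    (Λ Vt : ℤ) (hΛ : Λ = M2 A + 6 * (A u p + Mx.length + P.length)) (hpos : 0 < Λ)
    (hV : 36 * Vt ≤ Λ ^ 2)
    (hpot : Λ * Q (WP A c P) ε + 6 * S (dg A) ε ^ 2 ≤ -2 * Λ * (A u p + Mx.length) + 6 * Vt) :
    Good A := by
  have hI2P : ∀ x ∈ flat P, x ∈ I2 := fun x hx => (D.flatP x hx).1
  have hcen : ∀ x ∈ flat P, c x ∈ U := by
    intro x hx
    rcases (D.cU x (hI2P x hx)).2.1 with h | h
    · rw [h]; exact hp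
    · exact hM _ h
  obtain ⟨ε', st', sum', S', Q'⟩ := extend' A hA h0 (dg A) c u P U ε st D.ndP hPU hu
    (fun e he => ⟨hcen _ (mem_flat_of_mem he).1, hcen _ (mem_flat_of_mem he).2⟩)
    (fun x hx => ⟨(D.cU x (hI2P x hx)).1, (D.I2d x (hI2P x hx)).1, (D.cU x (hI2P x hx)).2.2⟩)
  have hall : ∀ x, x ∈ U ∪ (flat P).toFinset := by
    intro x
    rw [Finset.mem_union, List.mem_toFinset]
    rcases D.cover x with h | h | h | h | h
    · left; rw [h]; exact hu
    · left; rw [h]; exact hp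
    · left; exact hM x h
    · rcases D.I2cov x h with h | h
      · left; exact hR x h
      · right; exact h
    · left; exact hJ x h
  refine good_of_signs A hA ε' (fun a => st'.on a (hall a)) (by rw [sum']; exact hsum) ?_
  refine final_calc Λ (A u p + Mx.length + P.length) Vt (M2 A) _ _ hΛ hpos hV ?_
  rw [S', Q']
  linarith

/-- the greedy construction -/
theorem Dat.signs {A : V → V → ℤ} {u p : V} {Mx P : List (V × V)} {c : V → V}
    {I2 J R : Finset V} (D : Dat A u p Mx P c I2 J R) (hup : u ≠ p)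
    (hA : ∀ a b, A a b = A b a) (h0 : ∀ a, A a a = 0) (hAge : ∀ a b, 0 ≤ A a b)
    (hmin : ∀ a, 2 ≤ dg A a) (hmaxp : ∀ a, a ≠ u → dg A a ≤ dg A p)
    (h o : ℤ) (hN : 2 * Mx.length + I2.card + J.card = 2 * h + o)
    (ho0 : 0 ≤ o) (ho1 : o ≤ 1) (Λ : ℤ)
    (hΛ : Λ = M2 A + 6 * (A u p + Mx.length + P.length)) (hpos : 0 < Λ)
    (hV : 36 * ((dg A u - dg A p) ^ 2 + (dg A p - 2) * ∑ x ∈ (flat Mx).toFinset, (dg A x - 2) +
      (dg A p - 2 + 2 * o) ^ 2) ≤ Λ ^ 2) : Good A := by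
  classical
  set W := WP A c P with hW
  have hWs : ∀ a b, W a b = W b a := WP_symm A hA c P
  have hW0 : ∀ a, W a a = 0 := WP_diag A h0 c P D.ccP
  have hWge : ∀ a b, A a b ≤ W a b := WP_ge A c P
  -- first phase: hub pair and matching
  have hnd1 : (flat ((u, p) :: Mx)).Nodup := by
    simp only [flat_cons, List.nodup_cons, List.mem_cons, not_or]
    exact ⟨⟨hup, fun h => (D.memM u h).1 rfl⟩, fun h => (D.memM p h).2 rfl, D.ndM⟩
  obtain ⟨ε1, st1, sum1, pot1⟩ := greedy_pot W hWs hW0 (dg A) Λ ((u, p) :: Mx) ∅ 0 St.zero hnd1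
    (by simp)
  have hQ0 : Q W (0 : V → ℤ) = 0 := by simp [Q]
  have hS0 : S (dg A) (0 : V → ℤ) = 0 := by simp [S]
  have hpot1 : Λ * Q W ε1 + 6 * S (dg A) ε1 ^ 2 ≤ -2 * Λ * (A u p + Mx.length) +
      6 * ((dg A u - dg A p) ^ 2 + (dg A p - 2) * ∑ x ∈ (flat Mx).toFinset, (dg A x - 2)) := by
    refine pot1.trans ?_
    rw [hQ0, hS0]
    simp only [List.map_cons, List.sum_cons]
    have e1 : (Mx.map fun e => -2 * Λ * W e.1 e.2 + 6 * (dg A e.1 - dg A e.2) ^ 2).sum ≤
        (Mx.map fun e => -2 * Λ + 6 * (dg A p - 2) * ((dg A e.1 - 2) + (dg A e.2 - 2))).sum := by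
      refine list_sum_le _ _ _ fun e he => ?_
      have h1 : 1 ≤ W e.1 e.2 := by rw [← D.adjM e he]; exact hWge _ _
      have h2 := hmin e.1
      have h3 := hmin e.2
      have h4 := hmaxp e.1 (D.memM _ (mem_flat_of_mem he).1).1
      have h5 := hmaxp e.2 (D.memM _ (mem_flat_of_mem he).2).1
      have h6 : (dg A e.1 - dg A e.2) ^ 2 ≤ (dg A p - 2) * ((dg A e.1 - 2) + (dg A e.2 - 2)) := by
        rcases le_total (dg A e.1) (dg A e.2) with h | h <;> nlinarith
      nlinarith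
    have e2 : (Mx.map fun e => -2 * Λ + 6 * (dg A p - 2) * ((dg A e.1 - 2) + (dg A e.2 - 2))).sum =
        -2 * Λ * Mx.length + 6 * (dg A p - 2) * ∑ x ∈ (flat Mx).toFinset, (dg A x - 2) := by
      rw [sum_flat Mx D.ndM]
      exact list_sum_affine Mx (-2 * Λ) (6 * (dg A p - 2)) (fun x => dg A x - 2)
    have h1 := hWge u p
    nlinarith
  -- second phase: leftover
  have hUM : ∀ x, x ∈ (∅ : Finset V) ∪ (flat ((u, p) :: Mx)).toFinset ↔
      x = u ∨ x = p ∨ x ∈ flat Mx := by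
    intro x; simp
  set U1 := (∅ : Finset V) ∪ (flat ((u, p) :: Mx)).toFinset with hU1
  set X := R ∪ J with hX
  have hdRJ : Disjoint R J := Finset.disjoint_left.2 fun x hx hx2 =>
    (D.memI2 x (D.RI2 hx)).2.2.2 hx2
  have hXc : (X.card : ℤ) = R.card + J.card := by
    rw [hX, Finset.card_union_of_disjoint hdRJ]; push_cast; ring
  have hXU : ∀ x ∈ X, x ∉ U1 := by
    intro x hx hx1
    rw [hUM] at hx1
    rw [hX, Finset.mem_union] at hx
    have h3 : x ≠ u ∧ x ≠ p ∧ x ∉ flat Mx := by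
      rcases hx with h | h
      · exact ⟨(D.memI2 x (D.RI2 h)).1, (D.memI2 x (D.RI2 h)).2.1, (D.memI2 x (D.RI2 h)).2.2.1⟩
      · exact ⟨(D.memJ x h).1, (D.memJ x h).2.1, (D.memJ x h).2.2.1⟩
    tauto
  have hXd : ∀ a ∈ X, 2 ≤ dg A a ∧ dg A a ≤ dg A p := by
    intro a ha
    refine ⟨hmin a, hmaxp a ?_⟩
    rintro rfl
    exact hXU a ha ((hUM a).2 (Or.inl rfl))
  have hPX : ∀ x ∈ flat P, x ∉ X ∧ x ∉ U1 := by
    intro x hx
    have h1 := D.flatP x hx
    have h2 := D.memI2 x h1.1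
    constructor
    · rw [hX, Finset.mem_union, not_or]; exact ⟨h1.2, h2.2.2.2⟩
    · rw [hUM]; tauto
  have hcI := D.card_I2
  obtain ⟨hev, hod⟩ := exists_sorted (dg A) X.card X (dg A p) rfl (hmin p) hXd
  rcases (show o = 0 ∨ o = 1 by omega) with ho | ho
  · -- even
    have hEven : Even X.card := by
      have : (X.card : ℤ) % 2 = 0 := by omega
      rw [Nat.even_iff]; omega
    obtain ⟨l, l1, l2, l3⟩ := hev hEven
    have hlX : ∀ x ∈ flat l, x ∈ X := fun x hx => by rw [← l2]; exact List.mem_toFinset.2 hx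
    obtain ⟨ε2, st2, sum2, pot2⟩ := greedy_pot W hWs hW0 (dg A) Λ l U1 ε1 st1 l1
      (fun x hx => hXU x (hlX x hx))
    refine D.finish hA h0 (U1 ∪ (flat l).toFinset) ε2 st2 ?_ ?_ ?_ ?_ ?_ ?_ ?_ Λ _ hΛ hpos hV ?_
    · rw [Finset.mem_union]; left; exact (hUM u).2 (Or.inl rfl)
    · rw [Finset.mem_union]; left; exact (hUM p).2 (Or.inr (Or.inl rfl))
    · intro x hx; rw [Finset.mem_union]; left; exact (hUM x).2 (Or.inr (Or.inr hx))
    · intro x hx; rw [Finset.mem_union]; right; rw [l2, hX]; exact Finset.mem_union_right _ hx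
    · intro x hx; rw [Finset.mem_union]; right; rw [l2, hX]; exact Finset.mem_union_left _ hx
    · intro x hx; rw [Finset.mem_union, not_or, l2]; exact ⟨(hPX x hx).2, (hPX x hx).1⟩
    · rw [sum2, sum1]; simp
    · refine pot2.trans ?_
      have e1 : (l.map fun e => -2 * Λ * W e.1 e.2 + 6 * (dg A e.1 - dg A e.2) ^ 2).sum ≤
          (l.map fun e => 6 * |dg A e.1 - dg A e.2| ^ 2).sum := by
        refine list_sum_le _ _ _ fun e _ => ?_
        have h1 : 0 ≤ W e.1 e.2 := (hAge _ _).trans (hWge _ _)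
        rw [sq_abs]
        nlinarith [mul_nonneg hpos.le h1]
      have e2 : (l.map fun e => 6 * |dg A e.1 - dg A e.2| ^ 2).sum =
          6 * (l.map fun e => |dg A e.1 - dg A e.2| ^ 2).sum := List.sum_map_mul_left ..
      have e3 := sum_sq_le l (fun e => |dg A e.1 - dg A e.2|) (fun e => abs_nonneg _)
      have e4 : 0 ≤ (l.map fun e => |dg A e.1 - dg A e.2|).sum :=
        list_sum_nonneg _ _ fun e _ => abs_nonneg _
      have e5 : (l.map fun e => |dg A e.1 - dg A e.2|).sum ^ 2 ≤ (dg A p - 2 + 2 * o) ^ 2 := by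
        rw [ho]
        have := pow_le_pow_left₀ e4 l3 2
        simpa using this
      linarith
  · -- odd
    have hOdd : Odd X.card := by
      have : (X.card : ℤ) % 2 = 1 := by omega
      rw [Nat.odd_iff]; omega
    obtain ⟨l, t, l1, l2, l3, l4, l5, l6⟩ := hod hOdd
    have hlX : ∀ x ∈ flat l, x ∈ X := fun x hx => by
      rw [← l4]; exact Finset.mem_insert_of_mem (List.mem_toFinset.2 hx)
    obtain ⟨ε2, st2, sum2, pot2⟩ := greedy_pot W hWs hW0 (dg A) Λ l U1 ε1 st1 l1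
      (fun x hx => hXU x (hlX x hx))
    have htU : t ∉ U1 ∪ (flat l).toFinset := by
      rw [Finset.mem_union, not_or, List.mem_toFinset]; exact ⟨hXU t l3, l2⟩
    obtain ⟨σ, hσ, hle⟩ : ∃ σ : ℤ, (σ = 1 ∨ σ = -1) ∧
        Λ * Q W (ε2 + Pi.single t σ) + 6 * S (dg A) (ε2 + Pi.single t σ) ^ 2 ≤
          Λ * Q W ε2 + 6 * S (dg A) ε2 ^ 2 + 6 * dg A t ^ 2 := by
      by_cases hc : Λ * (2 * L W ε2 t) + 12 * S (dg A) ε2 * dg A t ≤ 0
      · refine ⟨1, Or.inl rfl, ?_⟩
        rw [Q_add_single W hWs hW0 ε2 t 1, S_add, S_single]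
        nlinarith
      · refine ⟨-1, Or.inr rfl, ?_⟩
        rw [Q_add_single W hWs hW0 ε2 t (-1), S_add, S_single]
        nlinarith
    have st3 := st2.add_single htU hσ
    refine D.finish hA h0 (insert t (U1 ∪ (flat l).toFinset)) _ st3 ?_ ?_ ?_ ?_ ?_ ?_ ?_ Λ _
      hΛ hpos hV ?_
    · rw [Finset.mem_insert, Finset.mem_union]; right; left; exact (hUM u).2 (Or.inl rfl)
    · rw [Finset.mem_insert, Finset.mem_union]; right; left; exact (hUM p).2 (Or.inr (Or.inl rfl))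
    · intro x hx; rw [Finset.mem_insert, Finset.mem_union]; right; left
      exact (hUM x).2 (Or.inr (Or.inr hx))
    · intro x hx
      have : x ∈ insert t (flat l).toFinset := by rw [l4, hX]; exact Finset.mem_union_right _ hx
      rw [Finset.mem_insert] at this
      rw [Finset.mem_insert, Finset.mem_union]; tauto
    · intro x hx
      have : x ∈ insert t (flat l).toFinset := by rw [l4, hX]; exact Finset.mem_union_left _ hx
      rw [Finset.mem_insert] at this
      rw [Finset.mem_insert, Finset.mem_union]; tauto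
    · intro x hx
      have h1 : x ∉ insert t (flat l).toFinset := by rw [l4]; exact (hPX x hx).1
      rw [Finset.mem_insert, not_or] at h1
      rw [Finset.mem_insert, Finset.mem_union, not_or, not_or]
      exact ⟨h1.1, (hPX x hx).2, h1.2⟩
    · simp only [Pi.add_apply, Finset.sum_add_distrib, sum2, sum1]
      rcases hσ with rfl | rfl <;> simp
    · refine hle.trans ?_
      have e1 : (l.map fun e => -2 * Λ * W e.1 e.2 + 6 * (dg A e.1 - dg A e.2) ^ 2).sum ≤
          (l.map fun e => 6 * |dg A e.1 - dg A e.2| ^ 2).sum := by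
        refine list_sum_le _ _ _ fun e _ => ?_
        have h1 : 0 ≤ W e.1 e.2 := (hAge _ _).trans (hWge _ _)
        rw [sq_abs]
        nlinarith [mul_nonneg hpos.le h1]
      have e2 : (l.map fun e => 6 * |dg A e.1 - dg A e.2| ^ 2).sum =
          6 * (l.map fun e => |dg A e.1 - dg A e.2| ^ 2).sum := List.sum_map_mul_left ..
      have e3 := sum_sq_le l (fun e => |dg A e.1 - dg A e.2|) (fun e => abs_nonneg _)
      have e4 : 0 ≤ (l.map fun e => |dg A e.1 - dg A e.2|).sum :=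
        list_sum_nonneg _ _ fun e _ => abs_nonneg _
      have e6 := hmin t
      have e5 : (l.map fun e => |dg A e.1 - dg A e.2|).sum ^ 2 + dg A t ^ 2 ≤
          (dg A p - 2 + 2 * o) ^ 2 := by
        rw [ho]
        have := pow_le_pow_left₀ (by linarith) l6 2
        nlinarith
      linarith

end Pool.Agent.Helper29.Bisect
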