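import Pool.Agent.Helper29.Bisect.CaseB3

set_option linter.unusedSectionVars false

/-!
# The case of one dominating vertex: assembly
-/

namespace Pool.Agent.Helper29.Bisect

open Finset

variable {V : Type*} [Fintype V] [DecidableEq V]

theorem caseB (A : V → V → ℤ) (hA : ∀ a b, A a b = A b a) (h0 : ∀ a, A a a = 0)
    (hA01 : ∀ a b, A a b = 0 ∨ A a b = 1) (hmin : ∀ a, 2 ≤ dg A a) (u p : V) (hup : u ≠ p)
    (hmaxp : ∀ a, a ≠ u → dg A a ≤ dg A p)
    (hB : M2 A < 6 * (dg A u - dg A p)) : Good A := by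
  have hAge : ∀ a b, 0 ≤ A a b := fun a b => by rcases hA01 a b with h | h <;> rw [h] <;> norm_num
  have hAle : ∀ a b, A a b ≤ 1 := fun a b => by rcases hA01 a b with h | h <;> rw [h] <;> norm_num
  obtain ⟨Mx, P, c, I2, J, R, D⟩ := exists_dat A h0 hA01 hmin u p
  set N : ℤ := 2 * Mx.length + I2.card + J.card with hN
  set h : ℤ := N / 2 with hh
  set o : ℤ := N % 2 with ho
  have hNho : N = 2 * h + o := by omega
  have ho0 : 0 ≤ o := by omega
  have ho1 : o ≤ 1 := by omega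
  have hh0 : 0 ≤ h := by omega
  set EM := ∑ x ∈ (flat Mx).toFinset, (dg A x - 2) with hEM
  set EJ := ∑ x ∈ J, (dg A x - 2) with hEJ
  set νM := ∑ x ∈ (flat Mx).toFinset, (1 - A x u) with hνM
  set νJ := ∑ x ∈ J, (1 - A x u) with hνJ
  have hdu := D.dg_u hup hA h0
  have hM2 := D.M2_eq hup
  have hc1 := D.c1 hup hA h0 hAge
  have hc2 := D.c2
  have hr2 := D.hr2 hup hA h0 hAge hAle hmin hmaxp
  have hI2 := D.card_I2
  have hmp := hmin p
  rw [← hEM, ← hEJ] at hM2
  rw [← hνM, ← hνJ] at hdu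
  rw [← hEM, ← hEJ, ← hνM, ← hνJ] at hc1
  rw [← hEJ, ← hνJ] at hc2
  have hEM0 : 0 ≤ EM := Finset.sum_nonneg fun x _ => by linarith [hmin x]
  have hEJ0 : 0 ≤ EJ := Finset.sum_nonneg fun x _ => by linarith [hmin x]
  have hνM0 : 0 ≤ νM := Finset.sum_nonneg fun x _ => by linarith [hAle x u]
  have hνJ0 : 0 ≤ νJ := Finset.sum_nonneg fun x _ => by linarith [hAle x u]
  have hcov : 0 ≤ (P.length : ℤ) := Int.natCast_nonneg _
  rcases numeric h o (A u p) (dg A p - 2) νM νJ J.card I2.card R.card EM EJ (dg A u - dg A p)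
    ho0 ho1 (hAge u p) (hAle u p) (by linarith) hνM0 hνJ0 (Int.natCast_nonneg _) hEM0 hEJ0
    (Int.natCast_nonneg _) (by linarith) (by linarith) (by linarith) (by linarith) hc2 (by linarith) with
    ⟨h1, h2, h3⟩ | ⟨h1, h2, h3⟩ | ⟨h1, h2, h3, h4⟩
  · refine D.signs hup hA h0 hAge hmin hmaxp h o (by linarith) ho0 ho1 _ rfl ?_ ?_
    · linarith
    · rw [← hEM]
      have hΛ : M2 A + 6 * (A u p + Mx.length + P.length) =
          6 * (dg A u - dg A p) + (A u p + 5 * (νM + νJ) + 7 * (dg A p - 2 + 2) + EM + EJ -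
            3 * J.card - 3 * R.card) := by linarith
      rw [hΛ]
      set s := A u p + 5 * (νM + νJ) + 7 * (dg A p - 2 + 2) + EM + EJ - 3 * J.card - 3 * R.card
      nlinarith [sq_nonneg s]
  · exact D.direct1 hup hA h0 hAle h o (by linarith) hh0 ho0 ho1 h1 (by linarith) (by linarith)
  · refine D.direct2 hup hA h0 hAle h o (by linarith) ho0 ho1 h1 (by linarith) (by linarith) ?_
    rw [← hEJ, ← hνJ]
    linarith

end Pool.Agent.Helper29.Bisect
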