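import Mathlib

set_option linter.unusedSectionVars false

/-!
# Greedy orientation of pairs

`Q W ε = ∑ W a b ε a ε b`, `S d ε = ∑ d a ε a`.  We extend a partial assignment
`ε : V → {-1, 0, 1}` by oriented pairs.
-/

namespace Pool.Agent.Helper29.Bisect

open Finset

variable {V : Type*} [Fintype V] [DecidableEq V]

/-- The quadratic form of a weight matrix. -/
def Q (W : V → V → ℤ) (ε : V → ℤ) : ℤ := ∑ a, ∑ b, W a b * ε a * ε b

/-- The linear form of a weight matrix. -/
def L (W : V → V → ℤ) (ε : V → ℤ) (a : V) : ℤ := ∑ b, W a b * ε b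

/-- The weighted sum. -/
def S (d : V → ℤ) (ε : V → ℤ) : ℤ := ∑ a, d a * ε a

theorem Q_eq (W : V → V → ℤ) (ε : V → ℤ) : Q W ε = ∑ a, ε a * L W ε a := by
  unfold Q L
  refine Finset.sum_congr rfl fun a _ => ?_
  rw [Finset.mul_sum]
  exact Finset.sum_congr rfl fun b _ => by ring

theorem Q_add (W : V → V → ℤ) (hW : ∀ a b, W a b = W b a) (ε δ : V → ℤ) :
    Q W (ε + δ) = Q W ε + 2 * ∑ a, δ a * L W ε a + Q W δ := by
  have h1 : ∑ a, ∑ b, W a b * ε a * δ b = ∑ a, δ a * L W ε a := by
    rw [Finset.sum_comm]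
    refine Finset.sum_congr rfl fun a _ => ?_
    unfold L
    rw [Finset.mul_sum]
    exact Finset.sum_congr rfl fun b _ => by rw [hW b a]; ring
  have h2 : ∑ a, ∑ b, W a b * δ a * ε b = ∑ a, δ a * L W ε a := by
    refine Finset.sum_congr rfl fun a _ => ?_
    unfold L
    rw [Finset.mul_sum]
    exact Finset.sum_congr rfl fun b _ => by ring
  have h3 : Q W (ε + δ) = Q W ε + ∑ a, ∑ b, W a b * ε a * δ b + ∑ a, ∑ b, W a b * δ a * ε b
      + Q W δ := by
    unfold Q
    rw [← Finset.sum_add_distrib, ← Finset.sum_add_distrib, ← Finset.sum_add_distrib]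
    refine Finset.sum_congr rfl fun a _ => ?_
    rw [← Finset.sum_add_distrib, ← Finset.sum_add_distrib, ← Finset.sum_add_distrib]
    refine Finset.sum_congr rfl fun b _ => ?_
    simp only [Pi.add_apply]
    ring
  rw [h3, h1, h2]; ring

/-- the increment of an oriented pair -/
def pr (a b : V) (σ : ℤ) : V → ℤ := Pi.single a σ - Pi.single b σ

theorem sum_pr_mul (a b : V) (σ : ℤ) (f : V → ℤ) :
    ∑ x, pr a b σ x * f x = σ * (f a - f b) := by
  unfold pr
  simp only [Pi.sub_apply, sub_mul, Finset.sum_sub_distrib, Pi.single_apply, ite_mul, zero_mul,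
    Finset.sum_ite_eq', Finset.mem_univ, if_true]
  ring

theorem sum_pr (a b : V) (σ : ℤ) : ∑ x, pr a b σ x = 0 := by
  have := sum_pr_mul a b σ (fun _ => 1)
  simpa using this

theorem L_pr (W : V → V → ℤ) (a b x : V) (σ : ℤ) :
    L W (pr a b σ) x = σ * (W x a - W x b) := by
  unfold L
  rw [← sum_pr_mul a b σ (fun y => W x y)]
  exact Finset.sum_congr rfl fun y _ => by ring

theorem Q_pr (W : V → V → ℤ) (hW : ∀ a b, W a b = W b a) (a b : V) (σ : ℤ) :
    Q W (pr a b σ) = σ ^ 2 * (W a a + W b b - 2 * W a b) := by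
  rw [Q_eq, sum_pr_mul, L_pr, L_pr, hW b a]; ring

theorem S_pr (d : V → ℤ) (a b : V) (σ : ℤ) : S d (pr a b σ) = σ * (d a - d b) := by
  unfold S
  rw [← sum_pr_mul a b σ d]
  exact Finset.sum_congr rfl fun y _ => by ring

theorem S_add (d ε δ : V → ℤ) : S d (ε + δ) = S d ε + S d δ := by
  unfold S
  rw [← Finset.sum_add_distrib]
  exact Finset.sum_congr rfl fun y _ => by simp only [Pi.add_apply]; ring

theorem Q_add_pr (W : V → V → ℤ) (hW : ∀ a b, W a b = W b a) (h0 : ∀ a, W a a = 0) (ε : V → ℤ)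
    (a b : V) (σ : ℤ) (hσ : σ = 1 ∨ σ = -1) :
    Q W (ε + pr a b σ) = Q W ε + 2 * (σ * (L W ε a - L W ε b)) - 2 * W a b := by
  rw [Q_add W hW, sum_pr_mul, Q_pr W hW, h0, h0]
  rcases hσ with rfl | rfl <;> ring

/-- `ε` is a sign assignment on `U`, zero elsewhere. -/
structure St (U : Finset V) (ε : V → ℤ) : Prop where
  on : ∀ a ∈ U, ε a = 1 ∨ ε a = -1
  off : ∀ a, a ∉ U → ε a = 0

theorem St.zero : St (∅ : Finset V) 0 := ⟨by simp, by simp⟩

theorem St.add_pr {U : Finset V} {ε : V → ℤ} (h : St U ε) {a b : V} (hab : a ≠ b) (ha : a ∉ U)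
    (hb : b ∉ U) {σ : ℤ} (hσ : σ = 1 ∨ σ = -1) : St (insert a (insert b U)) (ε + pr a b σ) := by
  constructor
  · intro x hx
    simp only [Finset.mem_insert] at hx
    by_cases hxa : x = a
    · subst hxa
      simp only [pr, Pi.add_apply, Pi.sub_apply, Pi.single_eq_same, h.off x ha,
        Pi.single_apply, if_neg hab]
      rcases hσ with rfl | rfl <;> simp
    · by_cases hxb : x = b
      · subst hxb
        simp only [pr, Pi.add_apply, Pi.sub_apply, Pi.single_eq_same, h.off x hb,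
          Pi.single_apply, if_neg hxa]
        rcases hσ with rfl | rfl <;> simp
      · have hxU : x ∈ U := by
          rcases hx with hx | hx | hx
          · exact absurd hx hxa
          · exact absurd hx hxb
          · exact hx
        simp only [pr, Pi.add_apply, Pi.sub_apply, Pi.single_apply, if_neg hxa, if_neg hxb]
        simpa using h.on x hxU
  · intro x hx
    simp only [Finset.mem_insert, not_or] at hx
    simp only [pr, Pi.add_apply, Pi.sub_apply, Pi.single_apply, if_neg hx.1, if_neg hx.2.1,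
      h.off x hx.2.2]
    simp

theorem St.add_single {U : Finset V} {ε : V → ℤ} (h : St U ε) {a : V} (ha : a ∉ U)
    {σ : ℤ} (hσ : σ = 1 ∨ σ = -1) : St (insert a U) (ε + Pi.single a σ) := by
  constructor
  · intro x hx
    simp only [Finset.mem_insert] at hx
    by_cases hxa : x = a
    · subst hxa
      simp only [Pi.add_apply, Pi.single_eq_same, h.off x ha]
      rcases hσ with rfl | rfl <;> simp
    · have hxU : x ∈ U := by
        rcases hx with hx | hx
        · exact absurd hx hxa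
        · exact hx
      simp only [Pi.add_apply, Pi.single_apply, if_neg hxa]
      simpa using h.on x hxU
  · intro x hx
    simp only [Finset.mem_insert, not_or] at hx
    simp only [Pi.add_apply, Pi.single_apply, if_neg hx.1, h.off x hx.2]
    simp

theorem Q_single (W : V → V → ℤ) (a : V) (σ : ℤ) :
    Q W (Pi.single a σ) = σ ^ 2 * W a a := by
  rw [Q_eq]
  rw [Finset.sum_eq_single a]
  · unfold L
    rw [Finset.sum_eq_single a]
    · simp only [Pi.single_eq_same]; ring
    · intro b _ hb; simp [Pi.single_apply, hb]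
    · simp
  · intro b _ hb; simp [Pi.single_apply, hb]
  · simp

theorem Q_add_single (W : V → V → ℤ) (hW : ∀ a b, W a b = W b a) (h0 : ∀ a, W a a = 0)
    (ε : V → ℤ) (a : V) (σ : ℤ) :
    Q W (ε + Pi.single a σ) = Q W ε + 2 * (σ * L W ε a) := by
  rw [Q_add W hW, Q_single, h0]
  have : ∑ x, (Pi.single a σ : V → ℤ) x * L W ε x = σ * L W ε a := by
    simp [Pi.single_apply]
  rw [this]; ring

theorem S_single (d : V → ℤ) (a : V) (σ : ℤ) : S d (Pi.single a σ) = d a * σ := by
  unfold S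
  simp [Pi.single_apply]

/-- flattening of a list of pairs -/
def flat (l : List (V × V)) : List V := l.flatMap fun e => [e.1, e.2]

@[simp] theorem flat_nil : flat ([] : List (V × V)) = [] := rfl

@[simp] theorem flat_cons (e : V × V) (l : List (V × V)) : flat (e :: l) = e.1 :: e.2 :: flat l := by
  simp [flat]

theorem flat_length (l : List (V × V)) : (flat l).length = 2 * l.length := by
  induction l with
  | nil => simp
  | cons e l ih => simp [ih]; ring

/-- Greedy with the combined potential `Λ Q + 6 S²`. -/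
theorem greedy_pot (W : V → V → ℤ) (hW : ∀ a b, W a b = W b a) (h0 : ∀ a, W a a = 0)
    (d : V → ℤ) (Λ : ℤ) (l : List (V × V)) :
    ∀ (U : Finset V) (ε : V → ℤ), St U ε → (flat l).Nodup → (∀ x ∈ flat l, x ∉ U) →
    ∃ ε' : V → ℤ, St (U ∪ (flat l).toFinset) ε' ∧ ∑ x, ε' x = ∑ x, ε x ∧
      Λ * Q W ε' + 6 * S d ε' ^ 2 ≤ Λ * Q W ε + 6 * S d ε ^ 2 +
        (l.map fun e => -2 * Λ * W e.1 e.2 + 6 * (d e.1 - d e.2) ^ 2).sum := by
  induction l with
  | nil => intro U ε h _ _; exact ⟨ε, by simpa using h, rfl, by simp⟩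
  | cons e l ih =>
    intro U ε h hnd hdis
    obtain ⟨a, b⟩ := e
    simp only [flat_cons, List.nodup_cons, List.mem_cons, not_or] at hnd hdis
    have hab : a ≠ b := hnd.1.1
    have haU : a ∉ U := hdis a (Or.inl rfl)
    have hbU : b ∉ U := hdis b (Or.inr (Or.inl rfl))
    -- choose the sign
    obtain ⟨σ, hσ, hle⟩ : ∃ σ : ℤ, (σ = 1 ∨ σ = -1) ∧
        Λ * Q W (ε + pr a b σ) + 6 * S d (ε + pr a b σ) ^ 2 ≤ Λ * Q W ε + 6 * S d ε ^ 2 +
          (-2 * Λ * W a b + 6 * (d a - d b) ^ 2) := by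
      by_cases hc : Λ * (2 * (L W ε a - L W ε b)) + 12 * S d ε * (d a - d b) ≤ 0
      · refine ⟨1, Or.inl rfl, ?_⟩
        rw [Q_add_pr W hW h0 ε a b 1 (Or.inl rfl), S_add, S_pr]
        nlinarith
      · refine ⟨-1, Or.inr rfl, ?_⟩
        rw [Q_add_pr W hW h0 ε a b (-1) (Or.inr rfl), S_add, S_pr]
        nlinarith
    have hst := h.add_pr hab haU hbU hσ
    obtain ⟨ε', h1, h2, h3⟩ := ih (insert a (insert b U)) (ε + pr a b σ) hst hnd.2.2 (by
      intro x hx
      simp only [Finset.mem_insert, not_or]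
      refine ⟨?_, ?_, hdis x (Or.inr (Or.inr hx))⟩
      · rintro rfl; exact hnd.1.2 hx
      · rintro rfl; exact hnd.2.1 hx)
    refine ⟨ε', ?_, ?_, ?_⟩
    · have : U ∪ (flat ((a, b) :: l)).toFinset = insert a (insert b U) ∪ (flat l).toFinset := by
        ext x; simp
      rw [this]; exact h1
    · rw [h2]
      simp only [Pi.add_apply, Finset.sum_add_distrib, sum_pr, add_zero]
    · simp only [List.map_cons, List.sum_cons]
      linarith

/-- Greedy with the potential `Q`, tracking `S`. -/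
theorem greedy_Q (W : V → V → ℤ) (hW : ∀ a b, W a b = W b a) (h0 : ∀ a, W a a = 0)
    (hpos : ∀ a b, 0 ≤ W a b) (d : V → ℤ) (l : List (V × V)) :
    ∀ (U : Finset V) (ε : V → ℤ), St U ε → (flat l).Nodup → (∀ x ∈ flat l, x ∉ U) →
    ∃ ε' : V → ℤ, St (U ∪ (flat l).toFinset) ε' ∧ ∑ x, ε' x = ∑ x, ε x ∧
      Q W ε' ≤ Q W ε ∧ |S d ε'| ≤ |S d ε| + (l.map fun e => |d e.1 - d e.2|).sum := by
  induction l with
  | nil => intro U ε h _ _; exact ⟨ε, by simpa using h, rfl, by simp, by simp⟩
  | cons e l ih =>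
    intro U ε h hnd hdis
    obtain ⟨a, b⟩ := e
    simp only [flat_cons, List.nodup_cons, List.mem_cons, not_or] at hnd hdis
    have hab : a ≠ b := hnd.1.1
    have haU : a ∉ U := hdis a (Or.inl rfl)
    have hbU : b ∉ U := hdis b (Or.inr (Or.inl rfl))
    obtain ⟨σ, hσ, hle⟩ : ∃ σ : ℤ, (σ = 1 ∨ σ = -1) ∧ Q W (ε + pr a b σ) ≤ Q W ε := by
      have := hpos a b
      by_cases hc : L W ε a - L W ε b ≤ 0
      · refine ⟨1, Or.inl rfl, ?_⟩
        rw [Q_add_pr W hW h0 ε a b 1 (Or.inl rfl)]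
        linarith
      · refine ⟨-1, Or.inr rfl, ?_⟩
        rw [Q_add_pr W hW h0 ε a b (-1) (Or.inr rfl)]
        linarith
    have hst := h.add_pr hab haU hbU hσ
    obtain ⟨ε', h1, h2, h3, h4⟩ := ih (insert a (insert b U)) (ε + pr a b σ) hst hnd.2.2 (by
      intro x hx
      simp only [Finset.mem_insert, not_or]
      refine ⟨?_, ?_, hdis x (Or.inr (Or.inr hx))⟩
      · rintro rfl; exact hnd.1.2 hx
      · rintro rfl; exact hnd.2.1 hx)
    refine ⟨ε', ?_, ?_, by linarith, ?_⟩
    · have : U ∪ (flat ((a, b) :: l)).toFinset = insert a (insert b U) ∪ (flat l).toFinset := by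
        ext x; simp
      rw [this]; exact h1
    · rw [h2]
      simp only [Pi.add_apply, Finset.sum_add_distrib, sum_pr, add_zero]
    · simp only [List.map_cons, List.sum_cons]
      rw [S_add, S_pr] at h4
      have h5 : |S d ε + σ * (d a - d b)| ≤ |S d ε| + |d a - d b| := by
        refine (abs_add_le _ _).trans ?_
        rcases hσ with rfl | rfl <;> simp [abs_sub_comm]
      linarith

end Pool.Agent.Helper29.Bisect
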