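import Pool.Agent.Helper29.Bisect.Lists

set_option linter.unusedSectionVars false

/-!
# Pairs of leaves with different centres act as virtual edges
-/

namespace Pool.Agent.Helper29.Bisect

open Finset

variable {V : Type*} [Fintype V] [DecidableEq V]

/-- virtual edge between the centres of a pair -/
def vE (c : V → V) (e : V × V) (a b : V) : ℤ :=
  (if c e.1 = a then (if c e.2 = b then 1 else 0) else 0) +
    (if c e.2 = a then (if c e.1 = b then 1 else 0) else 0)

/-- weights with virtual edges -/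
def WP (A : V → V → ℤ) (c : V → V) (P : List (V × V)) (a b : V) : ℤ :=
  A a b + (P.map fun e => vE c e a b).sum

theorem vE_symm (c : V → V) (e : V × V) (a b : V) : vE c e a b = vE c e b a := by
  unfold vE
  split_ifs <;> rfl

theorem vE_nonneg (c : V → V) (e : V × V) (a b : V) : 0 ≤ vE c e a b := by
  unfold vE; split_ifs <;> norm_num

theorem list_sum_nonneg {α : Type*} (l : List α) (f : α → ℤ) (h : ∀ x ∈ l, 0 ≤ f x) :
    0 ≤ (l.map f).sum := by
  induction l with
  | nil => simp
  | cons a l ih =>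
    simp only [List.map_cons, List.sum_cons]
    have h1 := h a (by simp)
    have h2 := ih fun x hx => h x (by simp [hx])
    linarith

theorem WP_symm (A : V → V → ℤ) (hA : ∀ a b, A a b = A b a) (c : V → V) (P : List (V × V))
    (a b : V) : WP A c P a b = WP A c P b a := by
  unfold WP
  rw [hA a b]
  simp only [vE_symm c _ a b]

theorem WP_ge (A : V → V → ℤ) (c : V → V) (P : List (V × V)) (a b : V) :
    A a b ≤ WP A c P a b := by
  unfold WP
  have := list_sum_nonneg P (fun e => vE c e a b) fun e _ => vE_nonneg c e a b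
  linarith

theorem WP_diag (A : V → V → ℤ) (h0 : ∀ a, A a a = 0) (c : V → V) (P : List (V × V))
    (hP : ∀ e ∈ P, c e.1 ≠ c e.2) (a : V) : WP A c P a a = 0 := by
  unfold WP
  rw [h0, zero_add]
  induction P with
  | nil => simp
  | cons e P ih =>
    simp only [List.map_cons, List.sum_cons]
    rw [ih fun e he => hP e (by simp [he])]
    have := hP e (by simp)
    unfold vE
    by_cases h1 : c e.1 = a
    · have h2 : c e.2 ≠ a := fun h2 => this (h1.trans h2.symm)
      simp [h1, h2]
    · simp [h1]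

theorem Q_vE (c : V → V) (e : V × V) (ε : V → ℤ) :
    Q (vE c e) ε = 2 * (ε (c e.1) * ε (c e.2)) := by
  unfold Q vE
  have h1 : ∀ a b : V, ((if c e.1 = a then (if c e.2 = b then (1 : ℤ) else 0) else 0) +
      (if c e.2 = a then (if c e.1 = b then 1 else 0) else 0)) * ε a * ε b =
      (if c e.1 = a then (if c e.2 = b then ε a * ε b else 0) else 0) +
        (if c e.2 = a then (if c e.1 = b then ε a * ε b else 0) else 0) := by
    intro a b
    rw [add_mul, add_mul]
    split_ifs <;> ring
  simp only [h1, Finset.sum_add_distrib]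
  simp only [Finset.sum_ite_eq, Finset.mem_univ, if_true, Finset.sum_ite_irrel, Finset.sum_const_zero]
  ring

theorem Q_add_W (A B : V → V → ℤ) (ε : V → ℤ) :
    Q (fun a b => A a b + B a b) ε = Q A ε + Q B ε := by
  unfold Q
  rw [← Finset.sum_add_distrib]
  refine Finset.sum_congr rfl fun a _ => ?_
  rw [← Finset.sum_add_distrib]
  exact Finset.sum_congr rfl fun b _ => by ring

theorem Q_WP (A : V → V → ℤ) (c : V → V) (P : List (V × V)) (ε : V → ℤ) :
    Q (WP A c P) ε = Q A ε + (P.map fun e => 2 * (ε (c e.1) * ε (c e.2))).sum := by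
  induction P with
  | nil =>
    have : WP A c [] = A := by funext a b; simp [WP]
    rw [this]; simp
  | cons e P ih =>
    have h1 : WP A c (e :: P) = fun a b => WP A c P a b + vE c e a b := by
      funext a b; simp only [WP, List.map_cons, List.sum_cons]; ring
    rw [h1, Q_add_W, ih, Q_vE c e]
    simp only [List.map_cons, List.sum_cons]
    ring

/-- Extension of an assignment over the leaf pairs. -/
theorem extend (A : V → V → ℤ) (hA : ∀ a b, A a b = A b a) (h0 : ∀ a, A a a = 0)
    (d : V → ℤ) (c : V → V) (u : V) (P : List (V × V)) :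
    ∀ (U : Finset V) (ε : V → ℤ), St U ε → (flat P).Nodup → (∀ x ∈ flat P, x ∉ U) → u ∈ U →
    (∀ e ∈ P, c e.1 ∈ U ∧ c e.2 ∈ U) →
    (∀ x ∈ flat P, c x ≠ u ∧ d x = 2 ∧ ∀ b, A x b = if b = u ∨ b = c x then 1 else 0) →
    ∃ ε' : V → ℤ, St (U ∪ (flat P).toFinset) ε' ∧ ∑ x, ε' x = ∑ x, ε x ∧ S d ε' = S d ε ∧
      Q A ε' = Q A ε + (P.map fun e => 2 * (ε (c e.1) * ε (c e.2) - 1)).sum := by
  induction P with
  | nil => intro U ε h _ _ _ _ _; exact ⟨ε, by simpa using h, rfl, rfl, by simp⟩
  | cons e P ih =>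
    intro U ε h hnd hdis hu hc hN
    obtain ⟨w, z⟩ := e
    have hcw := hc (w, z) (by simp)
    simp only [flat_cons, List.nodup_cons, List.mem_cons, not_or] at hnd hdis hN
    have hwz : w ≠ z := hnd.1.1
    have hwU : w ∉ U := hdis w (Or.inl rfl)
    have hzU : z ∉ U := hdis z (Or.inr (Or.inl rfl))
    obtain ⟨hw1, hw2, hw3⟩ := hN w (Or.inl rfl)
    obtain ⟨hz1, hz2, hz3⟩ := hN z (Or.inr (Or.inl rfl))
    have hL : ∀ x, c x ≠ u → (∀ b, A x b = if b = u ∨ b = c x then 1 else 0) →
        L A ε x = ε u + ε (c x) := by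
      intro x hx1 hx2
      unfold L
      have : ∀ b, A x b * ε b = (if b = u then ε b else 0) + (if b = c x then ε b else 0) := by
        intro b
        rw [hx2 b]
        by_cases h1 : b = u
        · have h2 : ¬ b = c x := by rw [h1]; exact hx1.symm
          simp [h1, hx1.symm]
        · by_cases h2 : b = c x <;> simp [h1, h2]
          intro h3; exact absurd h3 hx1
      simp only [this, Finset.sum_add_distrib, Finset.sum_ite_eq', Finset.mem_univ, if_true]
    have hAwz : A w z = 0 := by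
      rw [hw3 z, if_neg]
      rintro (h1 | h1)
      · exact hzU (h1 ▸ hu)
      · exact hzU (h1 ▸ hcw.1)
    obtain ⟨σ, hσ, hQ⟩ : ∃ σ : ℤ, (σ = 1 ∨ σ = -1) ∧
        Q A (ε + pr w z σ) = Q A ε + 2 * (ε (c w) * ε (c z) - 1) := by
      rcases h.on _ hcw.1 with h1 | h1 <;> rcases h.on _ hcw.2 with h2 | h2
      · refine ⟨1, Or.inl rfl, ?_⟩
        rw [Q_add_pr A hA h0 ε w z 1 (Or.inl rfl), hL w hw1 hw3, hL z hz1 hz3, hAwz]
        simp only at h1 h2
        rw [h1, h2]; ring
      · refine ⟨-1, Or.inr rfl, ?_⟩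
        rw [Q_add_pr A hA h0 ε w z (-1) (Or.inr rfl), hL w hw1 hw3, hL z hz1 hz3, hAwz]
        simp only at h1 h2
        rw [h1, h2]; ring
      · refine ⟨1, Or.inl rfl, ?_⟩
        rw [Q_add_pr A hA h0 ε w z 1 (Or.inl rfl), hL w hw1 hw3, hL z hz1 hz3, hAwz]
        simp only at h1 h2
        rw [h1, h2]; ring
      · refine ⟨1, Or.inl rfl, ?_⟩
        rw [Q_add_pr A hA h0 ε w z 1 (Or.inl rfl), hL w hw1 hw3, hL z hz1 hz3, hAwz]
        simp only at h1 h2
        rw [h1, h2]; ring
    have hst := h.add_pr hwz hwU hzU hσ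
    have hkeep : ∀ x ∈ U, (ε + pr w z σ) x = ε x := by
      intro x hx
      have h1 : x ≠ w := by rintro rfl; exact hwU hx
      have h2 : x ≠ z := by rintro rfl; exact hzU hx
      simp [pr, Pi.single_apply, h1, h2]
    obtain ⟨ε', e1, e2, e3, e4⟩ := ih (insert w (insert z U)) (ε + pr w z σ) hst hnd.2.2 (by
      intro x hx
      simp only [Finset.mem_insert, not_or]
      refine ⟨?_, ?_, hdis x (Or.inr (Or.inr hx))⟩
      · rintro rfl; exact hnd.1.2 hx
      · rintro rfl; exact hnd.2.1 hx) (by simp [hu]) (by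
      intro e he
      have := hc e (by simp [he])
      simp [this.1, this.2]) (by
      intro x hx
      exact hN x (Or.inr (Or.inr hx)))
    refine ⟨ε', ?_, ?_, ?_, ?_⟩
    · have : U ∪ (flat ((w, z) :: P)).toFinset = insert w (insert z U) ∪ (flat P).toFinset := by
        ext x; simp
      rw [this]; exact e1
    · rw [e2]
      simp only [Pi.add_apply, Finset.sum_add_distrib, sum_pr, add_zero]
    · rw [e3, S_add, S_pr, hw2, hz2]; ring
    · rw [e4, hQ]
      simp only [List.map_cons, List.sum_cons]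
      have : (P.map fun e => 2 * ((ε + pr w z σ) (c e.1) * (ε + pr w z σ) (c e.2) - 1)) =
          (P.map fun e => 2 * (ε (c e.1) * ε (c e.2) - 1)) := by
        refine List.map_congr_left fun e he => ?_
        have := hc e (by simp [he])
        rw [hkeep _ this.1, hkeep _ this.2]
      rw [this]; ring

theorem extend' (A : V → V → ℤ) (hA : ∀ a b, A a b = A b a) (h0 : ∀ a, A a a = 0)
    (d : V → ℤ) (c : V → V) (u : V) (P : List (V × V)) (U : Finset V) (ε : V → ℤ)
    (h : St U ε) (hnd : (flat P).Nodup) (hdis : ∀ x ∈ flat P, x ∉ U) (hu : u ∈ U)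
    (hc : ∀ e ∈ P, c e.1 ∈ U ∧ c e.2 ∈ U)
    (hN : ∀ x ∈ flat P, c x ≠ u ∧ d x = 2 ∧ ∀ b, A x b = if b = u ∨ b = c x then 1 else 0) :
    ∃ ε' : V → ℤ, St (U ∪ (flat P).toFinset) ε' ∧ ∑ x, ε' x = ∑ x, ε x ∧ S d ε' = S d ε ∧
      Q A ε' = Q (WP A c P) ε - 2 * P.length := by
  obtain ⟨ε', e1, e2, e3, e4⟩ := extend A hA h0 d c u P U ε h hnd hdis hu hc hN
  refine ⟨ε', e1, e2, e3, ?_⟩
  rw [e4, Q_WP A c P]
  have : (P.map fun e => 2 * (ε (c e.1) * ε (c e.2) - 1)).sum =
      (P.map fun e => 2 * (ε (c e.1) * ε (c e.2))).sum - 2 * P.length := by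
    clear e1 e4 hN hc hdis hnd
    induction P with
    | nil => simp
    | cons e P ih =>
      simp only [List.map_cons, List.sum_cons, List.length_cons]
      rw [ih]; push_cast; ring
  rw [this]; ring

end Pool.Agent.Helper29.Bisect
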