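import Pool.Agent.Helper29.Bisect.Extend

set_option linter.unusedSectionVars false

/-!
# From signs to bisections
-/

namespace Pool.Agent.Helper29.Bisect

open Finset

variable {V : Type*} [Fintype V] [DecidableEq V]

/-- degree -/
def dg (A : V → V → ℤ) (a : V) : ℤ := ∑ b, A a b

/-- twice the number of edges inside `T` -/
def e2 (A : V → V → ℤ) (T : Finset V) : ℤ := ∑ a ∈ T, ∑ b ∈ T, A a b

/-- twice the number of edges -/
def M2 (A : V → V → ℤ) : ℤ := ∑ a, dg A a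

/-- there is a bisection with at most a third of the edges inside each class -/
def Good (A : V → V → ℤ) : Prop :=
  ∃ T : Finset V, |2 * (T.card : ℤ) - Fintype.card V| ≤ 1 ∧
    3 * e2 A T ≤ M2 A ∧ 3 * e2 A Tᶜ ≤ M2 A

theorem e2_eq (A : V → V → ℤ) (T : Finset V) :
    e2 A T = ∑ a, ∑ b, A a b * (if a ∈ T then 1 else 0) * (if b ∈ T then 1 else 0) := by
  unfold e2
  rw [← Finset.sum_filter_add_sum_filter_not Finset.univ (· ∈ T)]
  have h1 : ∑ a ∈ Finset.univ.filter (fun x => ¬ x ∈ T),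
      ∑ b, A a b * (if a ∈ T then 1 else 0) * (if b ∈ T then 1 else 0) = 0 := by
    refine Finset.sum_eq_zero fun a ha => ?_
    simp only [Finset.mem_filter] at ha
    simp [ha.2]
  rw [h1, add_zero]
  have h2 : Finset.univ.filter (· ∈ T) = T := by ext; simp
  rw [h2]
  refine Finset.sum_congr rfl fun a ha => ?_
  rw [← Finset.sum_filter_add_sum_filter_not Finset.univ (· ∈ T)]
  have h3 : ∑ b ∈ Finset.univ.filter (fun x => ¬ x ∈ T),
      A a b * (if a ∈ T then 1 else 0) * (if b ∈ T then 1 else 0) = 0 := by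
    refine Finset.sum_eq_zero fun b hb => ?_
    simp only [Finset.mem_filter] at hb
    simp [hb.2]
  rw [h3, add_zero, h2]
  refine Finset.sum_congr rfl fun b hb => ?_
  simp [ha, hb]

theorem four_e2 (A : V → V → ℤ) (hA : ∀ a b, A a b = A b a) (T : Finset V) (ε : V → ℤ)
    (hε : ∀ a, ε a = if a ∈ T then 1 else -1) :
    4 * e2 A T = M2 A + 2 * S (dg A) ε + Q A ε := by
  have h1 : ∀ a, (if a ∈ T then (1 : ℤ) else 0) * 2 = 1 + ε a := by
    intro a; rw [hε]; split_ifs <;> norm_num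
  have h2 : 4 * e2 A T = ∑ a, ∑ b, A a b * (1 + ε a) * (1 + ε b) := by
    rw [e2_eq, Finset.mul_sum]
    refine Finset.sum_congr rfl fun a _ => ?_
    rw [Finset.mul_sum]
    refine Finset.sum_congr rfl fun b _ => ?_
    rw [← h1 a, ← h1 b]; ring
  have h3 : ∑ a, ∑ b, A a b * ε b = S (dg A) ε := by
    rw [Finset.sum_comm]
    unfold S dg
    refine Finset.sum_congr rfl fun a _ => ?_
    rw [Finset.sum_mul]
    exact Finset.sum_congr rfl fun b _ => by rw [hA b a]
  have h4 : ∑ a, ∑ b, A a b * ε a = S (dg A) ε := by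
    unfold S dg
    refine Finset.sum_congr rfl fun a _ => ?_
    rw [Finset.sum_mul]
  have h5 : ∑ a, ∑ b, A a b * (1 + ε a) * (1 + ε b) =
      M2 A + ∑ a, ∑ b, A a b * ε a + ∑ a, ∑ b, A a b * ε b + Q A ε := by
    unfold M2 dg Q
    rw [← Finset.sum_add_distrib, ← Finset.sum_add_distrib, ← Finset.sum_add_distrib]
    refine Finset.sum_congr rfl fun a _ => ?_
    rw [← Finset.sum_add_distrib, ← Finset.sum_add_distrib, ← Finset.sum_add_distrib]
    exact Finset.sum_congr rfl fun b _ => by ring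
  rw [h2, h5, h3, h4]; ring

theorem Q_neg (A : V → V → ℤ) (ε : V → ℤ) : Q A (-ε) = Q A ε := by
  unfold Q
  refine Finset.sum_congr rfl fun a _ => Finset.sum_congr rfl fun b _ => ?_
  simp only [Pi.neg_apply]; ring

theorem S_neg (d : V → ℤ) (ε : V → ℤ) : S d (-ε) = - S d ε := by
  unfold S
  rw [← Finset.sum_neg_distrib]
  refine Finset.sum_congr rfl fun a _ => ?_
  simp only [Pi.neg_apply]; ring

theorem good_of_signs (A : V → V → ℤ) (hA : ∀ a b, A a b = A b a) (ε : V → ℤ)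
    (hε : ∀ a, ε a = 1 ∨ ε a = -1) (hb : |∑ a, ε a| ≤ 1)
    (h : 3 * Q A ε + 6 * |S (dg A) ε| ≤ M2 A) : Good A := by
  classical
  set T := Finset.univ.filter fun a => ε a = 1 with hT
  have h1 : ∀ a, ε a = if a ∈ T then 1 else -1 := by
    intro a
    simp only [hT, Finset.mem_filter, Finset.mem_univ, true_and]
    rcases hε a with h | h <;> simp [h]
  have h2 : ∀ a, (-ε) a = if a ∈ Tᶜ then 1 else -1 := by
    intro a
    simp only [Pi.neg_apply, Finset.mem_compl]
    rw [h1 a]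
    by_cases h : a ∈ T <;> simp [h]
  have h3 : ∑ a, ε a = 2 * (T.card : ℤ) - Fintype.card V := by
    have : ∀ a, ε a = 2 * (if a ∈ T then (1 : ℤ) else 0) - 1 := by
      intro a; rw [h1 a]; split_ifs <;> norm_num
    simp only [this, Finset.sum_sub_distrib, ← Finset.mul_sum]
    simp
  have h4 := four_e2 A hA T ε h1
  have h5 := four_e2 A hA Tᶜ (-ε) h2
  rw [Q_neg, S_neg] at h5
  have h6 := le_abs_self (S (dg A) ε)
  have h7 := neg_abs_le (S (dg A) ε)
  refine ⟨T, by rw [← h3]; exact hb, by linarith, by linarith⟩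

theorem e2_compl (A : V → V → ℤ) (hA : ∀ a b, A a b = A b a) (T : Finset V) :
    e2 A Tᶜ = M2 A - 2 * ∑ a ∈ T, dg A a + e2 A T := by
  have h1 : M2 A = ∑ a ∈ T, dg A a + ∑ a ∈ Tᶜ, dg A a := by
    unfold M2; rw [← Finset.sum_add_sum_compl T]
  have h2 : ∀ a, dg A a = ∑ b ∈ T, A a b + ∑ b ∈ Tᶜ, A a b := by
    intro a; unfold dg; rw [← Finset.sum_add_sum_compl T]
  have h3 : ∑ a ∈ T, dg A a = e2 A T + ∑ a ∈ T, ∑ b ∈ Tᶜ, A a b := by
    unfold e2; rw [← Finset.sum_add_distrib]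
    exact Finset.sum_congr rfl fun a _ => h2 a
  have h4 : ∑ a ∈ Tᶜ, dg A a = e2 A Tᶜ + ∑ a ∈ Tᶜ, ∑ b ∈ T, A a b := by
    unfold e2; rw [← Finset.sum_add_distrib]
    exact Finset.sum_congr rfl fun a _ => by rw [h2 a]; ring
  have h5 : ∑ a ∈ Tᶜ, ∑ b ∈ T, A a b = ∑ a ∈ T, ∑ b ∈ Tᶜ, A a b := by
    rw [Finset.sum_comm]
    exact Finset.sum_congr rfl fun a _ => Finset.sum_congr rfl fun b _ => hA b a
  linarith

/-- The final computation from the potential bound. -/
theorem final_calc (Λ γ Vt m2 q s : ℤ) (hΛ : Λ = m2 + 6 * γ) (hpos : 0 < Λ)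
    (hV : 36 * Vt ≤ Λ ^ 2) (h : Λ * q + 6 * s ^ 2 ≤ -2 * Λ * γ + 6 * Vt) :
    3 * q + 6 * |s| ≤ m2 := by
  have h1 : s ^ 2 = |s| ^ 2 := (sq_abs s).symm
  rw [h1] at h
  set t := |s|
  have h2 := sq_nonneg (6 * t - Λ)
  have h3 : Λ * (3 * q + 6 * t) ≤ Λ * m2 := by
    have : m2 = Λ - 6 * γ := by linarith
    rw [this]
    nlinarith
  exact le_of_mul_le_mul_left h3 hpos

end Pool.Agent.Helper29.Bisect
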