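import Pool.Agent.Helper29.Bisect.Core

set_option linter.unusedSectionVars false

/-!
# Lists of disjoint pairs
-/

namespace Pool.Agent.Helper29.Bisect

open Finset

variable {V : Type*} [Fintype V] [DecidableEq V]

/-- Inclusion-maximal list of disjoint `r`-pairs in a finite set. -/
theorem exists_maximal (r : V → V → Prop) (n : ℕ) : ∀ X : Finset V, X.card = n →
    ∃ l : List (V × V), (∀ e ∈ l, e.1 ∈ X ∧ e.2 ∈ X ∧ r e.1 e.2) ∧ (flat l).Nodup ∧
      (∀ a ∈ X, ∀ b ∈ X, a ∉ flat l → b ∉ flat l → a ≠ b → ¬ r a b) := by
  induction n using Nat.strong_induction_on with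
  | _ n ih =>
    intro X hX
    by_cases h : ∃ a ∈ X, ∃ b ∈ X, a ≠ b ∧ r a b
    · obtain ⟨a, ha, b, hb, hab, hr⟩ := h
      have hb' : b ∈ X.erase a := Finset.mem_erase.2 ⟨hab.symm, hb⟩
      have hcard : ((X.erase a).erase b).card < n := by
        rw [Finset.card_erase_of_mem hb', Finset.card_erase_of_mem ha, hX]
        have := Finset.card_pos.2 ⟨a, ha⟩
        omega
      obtain ⟨l, h1, h2, h3⟩ := ih _ hcard ((X.erase a).erase b) rfl
      have hmem : ∀ x ∈ flat l, x ∈ (X.erase a).erase b := by
        intro x hx
        simp only [flat, List.mem_flatMap] at hx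
        obtain ⟨e, he, hx⟩ := hx
        simp only [List.mem_cons, List.not_mem_nil, or_false] at hx
        rcases hx with rfl | rfl
        · exact (h1 e he).1
        · exact (h1 e he).2.1
      refine ⟨(a, b) :: l, ?_, ?_, ?_⟩
      · intro e he
        rcases List.mem_cons.1 he with rfl | he
        · exact ⟨ha, hb, hr⟩
        · obtain ⟨h4, h5, h6⟩ := h1 e he
          simp only [Finset.mem_erase] at h4 h5
          exact ⟨h4.2.2, h5.2.2, h6⟩
      · simp only [flat_cons, List.nodup_cons, List.mem_cons, not_or]
        refine ⟨⟨hab, ?_⟩, ?_, h2⟩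
        · intro h; have := hmem _ h; simp at this
        · intro h; have := hmem _ h; simp at this
      · intro x hx y hy hx' hy' hxy
        simp only [flat_cons, List.mem_cons, not_or] at hx' hy'
        exact h3 x (by simp [hx, hx'.1, hx'.2.1]) y (by simp [hy, hy'.1, hy'.2.1]) hx'.2.2 hy'.2.2 hxy
    · push Not at h
      exact ⟨[], by simp, by simp, fun a ha b hb _ _ hab => h a ha b hb hab⟩

/-- Sorted pairing: even case ends with everything paired; odd case leaves one vertex of
minimum weight. -/
theorem exists_sorted (d : V → ℤ) (n : ℕ) : ∀ (X : Finset V) (B : ℤ), X.card = n → 2 ≤ B →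
    (∀ a ∈ X, 2 ≤ d a ∧ d a ≤ B) →
    (Even n → ∃ l : List (V × V), (flat l).Nodup ∧ (flat l).toFinset = X ∧
      (l.map fun e => |d e.1 - d e.2|).sum ≤ B - 2) ∧
    (Odd n → ∃ (l : List (V × V)) (t : V), (flat l).Nodup ∧ t ∉ flat l ∧ t ∈ X ∧
      insert t (flat l).toFinset = X ∧ (∀ a ∈ X, d t ≤ d a) ∧
      (l.map fun e => |d e.1 - d e.2|).sum + d t ≤ B) := by
  induction n using Nat.strong_induction_on with
  | _ n ih =>
    intro X B hX hB hd
    rcases Nat.lt_or_ge n 2 with hn | hn
    · interval_cases n
      · have hX0 : X = ∅ := Finset.card_eq_zero.1 hX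
        refine ⟨fun _ => ⟨[], by simp, by simp [hX0], by simpa using hB⟩, fun h => ?_⟩
        exact absurd h (by decide)
      · obtain ⟨t, ht⟩ := Finset.card_eq_one.1 hX
        refine ⟨fun h => absurd h (by decide), fun _ => ⟨[], t, by simp, by simp, by simp [ht],
          by simp [ht], ?_, ?_⟩⟩
        · intro a ha; rw [ht] at ha; rw [Finset.mem_singleton.1 ha]
        · simpa using (hd t (by simp [ht])).2
    · -- remove the two largest
      have hne : X.Nonempty := Finset.card_pos.1 (by omega)
      obtain ⟨a, ha, hamax⟩ := Finset.exists_max_image X d hne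
      have hc1 : (X.erase a).card = n - 1 := by rw [Finset.card_erase_of_mem ha, hX]
      have hne2 : (X.erase a).Nonempty := Finset.card_pos.1 (by omega)
      obtain ⟨b, hb, hbmax⟩ := Finset.exists_max_image (X.erase a) d hne2
      have hbX : b ∈ X := Finset.mem_of_mem_erase hb
      have hba : b ≠ a := Finset.ne_of_mem_erase hb
      set Y := (X.erase a).erase b with hY
      have hcY : Y.card = n - 2 := by
        rw [hY, Finset.card_erase_of_mem hb, hc1]; omega
      have hdY : ∀ x ∈ Y, 2 ≤ d x ∧ d x ≤ d b := by
        intro x hx
        have hx1 : x ∈ X.erase a := Finset.mem_of_mem_erase hx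
        exact ⟨(hd x (Finset.mem_of_mem_erase hx1)).1, hbmax x hx1⟩
      obtain ⟨he, ho⟩ := ih (n - 2) (by omega) Y (d b) hcY (hd b hbX).1 hdY
      have hab : d b ≤ d a := hamax b hbX
      have haB := (hd a ha).2
      have hXY : X = insert a (insert b Y) := by
        ext x
        simp only [hY, Finset.mem_insert, Finset.mem_erase]
        constructor
        · intro hx
          by_cases h1 : x = a
          · exact Or.inl h1
          · by_cases h2 : x = b
            · exact Or.inr (Or.inl h2)
            · exact Or.inr (Or.inr ⟨h2, h1, hx⟩)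
        · rintro (rfl | rfl | h)
          · exact ha
          · exact hbX
          · exact h.2.2
      constructor
      · intro hev
        obtain ⟨l, h1, h2, h3⟩ := he (by
          obtain ⟨k, hk⟩ := hev; exact ⟨k - 1, by omega⟩)
        have hna : a ∉ flat l := by
          intro h
          have : a ∈ Y := by rw [← h2]; exact List.mem_toFinset.2 h
          simp [hY] at this
        have hnb : b ∉ flat l := by
          intro h
          have : b ∈ Y := by rw [← h2]; exact List.mem_toFinset.2 h
          simp [hY] at this
        refine ⟨(a, b) :: l, ?_, ?_, ?_⟩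
        · simp only [flat_cons, List.nodup_cons, List.mem_cons, not_or]
          exact ⟨⟨hba.symm, hna⟩, hnb, h1⟩
        · simp only [flat_cons, List.toFinset_cons, h2]
          exact hXY.symm
        · simp only [List.map_cons, List.sum_cons]
          rw [abs_of_nonneg (by linarith)]
          linarith
      · intro hodd
        obtain ⟨l, t, h1, h2, h3, h4, h5, h6⟩ := ho (by
          obtain ⟨k, hk⟩ := hodd; exact ⟨k - 1, by omega⟩)
        have hna : a ∉ flat l := by
          intro h
          have : a ∈ Y := by rw [← h4]; exact Finset.mem_insert_of_mem (List.mem_toFinset.2 h)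
          simp [hY] at this
        have hnb : b ∉ flat l := by
          intro h
          have : b ∈ Y := by rw [← h4]; exact Finset.mem_insert_of_mem (List.mem_toFinset.2 h)
          simp [hY] at this
        have hta : t ≠ a := by
          rintro rfl
          simp [hY] at h3
        have htb : t ≠ b := by
          rintro rfl
          simp [hY] at h3
        refine ⟨(a, b) :: l, t, ?_, ?_, ?_, ?_, ?_, ?_⟩
        · simp only [flat_cons, List.nodup_cons, List.mem_cons, not_or]
          exact ⟨⟨hba.symm, hna⟩, hnb, h1⟩
        · simp only [flat_cons, List.mem_cons, not_or]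
          exact ⟨hta, htb, h2⟩
        · rw [hXY]; simp [h3]
        · simp only [flat_cons, List.toFinset_cons]
          rw [hXY, ← h4]
          ext x; simp only [Finset.mem_insert]; tauto
        · intro x hx
          rw [hXY, Finset.mem_insert, Finset.mem_insert] at hx
          rcases hx with rfl | rfl | hx
          · exact ((hdY t h3).2).trans hab
          · exact (hdY t h3).2
          · exact h5 x hx
        · simp only [List.map_cons, List.sum_cons]
          rw [abs_of_nonneg (by linarith)]
          linarith

end Pool.Agent.Helper29.Bisect
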