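import Pool.Agent.Helper29.Bisect.CaseA
import Pool.Agent.Helper29.Bisect.CaseB4

set_option linter.unusedSectionVars false

/-!
# Every 0/1 symmetric matrix with row sums at least two has a good bisection
-/

namespace Pool.Agent.Helper29.Bisect

open Finset

variable {V : Type*} [Fintype V] [DecidableEq V]

theorem good_three (A : V → V → ℤ) (hA : ∀ a b, A a b = A b a) (h0 : ∀ a, A a a = 0)
    (hAle : ∀ a b, A a b ≤ 1) (hmin : ∀ a, 2 ≤ dg A a) (u : V)
    (hmaxu : ∀ a, dg A a ≤ dg A u) (hn : Fintype.card V = 3) : Good A := by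
  have h1 : e2 A {u} = 0 := by simp [e2, h0]
  have h2 := e2_compl A hA {u}
  rw [Finset.sum_singleton, h1] at h2
  have h3 : M2 A ≤ 3 * dg A u := by
    calc M2 A ≤ ∑ _a : V, dg A u := Finset.sum_le_sum fun a _ => hmaxu a
      _ = 3 * dg A u := by simp [hn]
  have h4 := hmin u
  have h5 := three_dg A h0 hAle hmin u
  refine ⟨{u}, by simp [hn], by rw [h1]; linarith, by rw [h2]; linarith⟩

theorem e2_pair (A : V → V → ℤ) (hA : ∀ a b, A a b = A b a) (h0 : ∀ a, A a a = 0) (u p : V)
    (hup : u ≠ p) : e2 A {u, p} = 2 * A u p := by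
  unfold e2
  simp only [Finset.sum_insert (show u ∉ ({p} : Finset V) by simp [hup]), Finset.sum_singleton, h0,
    hA p u]
  ring

theorem good_five (A : V → V → ℤ) (hA : ∀ a b, A a b = A b a) (h0 : ∀ a, A a a = 0)
    (hA01 : ∀ a b, A a b = 0 ∨ A a b = 1) (hmin : ∀ a, 2 ≤ dg A a) (u p : V) (hup : u ≠ p)
    (hmaxu : ∀ a, dg A a ≤ dg A u) (hmaxp : ∀ a, a ≠ u → dg A a ≤ dg A p)
    (hn : Fintype.card V = 5) : Good A := by
  classical
  have hAle : ∀ a b, A a b ≤ 1 := fun a b => by rcases hA01 a b with h | h <;> simp [h]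
  have hM : M2 A ≤ dg A u + 4 * dg A p := by
    have h2 : M2 A = dg A u + ∑ b ∈ Finset.univ.erase u, dg A b := by
      unfold M2; rw [← Finset.sum_erase_add _ _ (Finset.mem_univ u)]; ring
    have h3 : ∑ b ∈ Finset.univ.erase u, dg A b ≤ ∑ b ∈ Finset.univ.erase u, dg A p :=
      Finset.sum_le_sum fun b hb => hmaxp b (Finset.ne_of_mem_erase hb)
    rw [Finset.sum_const, Finset.card_erase_of_mem (Finset.mem_univ u), Finset.card_univ, hn] at h3
    simp only [nsmul_eq_mul] at h3
    push_cast at h3
    linarith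
  have hM' : 10 ≤ M2 A := by
    calc (10 : ℤ) = ∑ _a : V, (2 : ℤ) := by simp [hn]
      _ ≤ M2 A := Finset.sum_le_sum fun a _ => hmin a
  have hu := hmin u
  have hp := hmin p
  have hup' := hmaxu p
  -- main subcase
  by_cases hs : 5 ≤ dg A u + dg A p
  · have h1 := e2_pair A hA h0 u p hup
    have h2 := e2_compl A hA {u, p}
    rw [Finset.sum_pair hup, h1] at h2
    have h3 := hAle u p
    refine ⟨{u, p}, ?_, by rw [h1]; linarith, ?_⟩
    · rw [Finset.card_pair hup, hn]; norm_num
    · rw [h2]
      rcases (show dg A p = 2 ∨ 3 ≤ dg A p by omega) with h | h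
      · rcases (show dg A u = 3 ∨ 4 ≤ dg A u by omega) with h' | h'
        · have : M2 A ≤ 11 := by linarith
          linarith
        · linarith
      · linarith
  · have hu2 : dg A u = 2 := by omega
    have hp2 : dg A p = 2 := by omega
    have hall : ∀ a, dg A a = 2 := fun a => le_antisymm (by rw [← hu2]; exact hmaxu a) (hmin a)
    have hM10 : M2 A = 10 := by
      unfold M2; simp [hall, hn]
    obtain ⟨b, hb, hbu⟩ : ∃ b, b ≠ u ∧ A u b = 0 := by
      by_contra hcon
      push Not at hcon
      have h1 : ∀ b, b ≠ u → A u b = 1 := fun b hb => by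
        rcases hA01 u b with h | h
        · exact absurd h (hcon b hb)
        · exact h
      have h2 : dg A u = 4 := by
        unfold dg
        rw [← Finset.sum_erase_add _ _ (Finset.mem_univ u), h0, add_zero,
          Finset.sum_congr rfl (g := fun _ => (1 : ℤ)) fun x hx => h1 x (Finset.ne_of_mem_erase hx),
          Finset.sum_const, Finset.card_erase_of_mem (Finset.mem_univ u), Finset.card_univ, hn]
        norm_num
      linarith
    have h1 := e2_pair A hA h0 u b hb.symm
    have h2 := e2_compl A hA {u, b}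
    rw [Finset.sum_pair hb.symm, h1, hbu, hall, hall] at h2
    refine ⟨{u, b}, ?_, by rw [h1, hbu]; linarith, by rw [h2, hM10]; norm_num⟩
    rw [Finset.card_pair hb.symm, hn]; norm_num

theorem good (A : V → V → ℤ) (hA : ∀ a b, A a b = A b a) (h0 : ∀ a, A a a = 0)
    (hA01 : ∀ a b, A a b = 0 ∨ A a b = 1) (hmin : ∀ a, 2 ≤ dg A a) : Good A := by
  classical
  have hAle : ∀ a b, A a b ≤ 1 := fun a b => by rcases hA01 a b with h | h <;> simp [h]
  rcases isEmpty_or_nonempty V with hV | hV
  · refine ⟨∅, by simp, by simp [e2, M2], by simp [e2, M2]⟩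
  · obtain ⟨u, -, hu⟩ := Finset.exists_max_image Finset.univ (dg A) Finset.univ_nonempty
    have hmaxu : ∀ a, dg A a ≤ dg A u := fun a => hu a (Finset.mem_univ a)
    have h3 : 3 ≤ Fintype.card V := by
      have h1 := dg_le A h0 hAle u
      have h2 := hmin u
      omega
    have hne : (Finset.univ.erase u).Nonempty := Finset.card_pos.1 (by
      rw [Finset.card_erase_of_mem (Finset.mem_univ u), Finset.card_univ]; omega)
    obtain ⟨p, hp, hp'⟩ := Finset.exists_max_image (Finset.univ.erase u) (dg A) hne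
    have hup : u ≠ p := (Finset.ne_of_mem_erase hp).symm
    have hmaxp : ∀ a, a ≠ u → dg A a ≤ dg A p := fun a ha => hp' a (by simp [ha])
    by_cases hB : M2 A < 6 * (dg A u - dg A p)
    · exact caseB A hA h0 hA01 hmin u p hup hmaxp hB
    · push Not at hB
      rcases Nat.even_or_odd (Fintype.card V) with he | ho
      · have h4 : 4 ≤ Fintype.card V := by obtain ⟨k, hk⟩ := he; omega
        exact caseA_even A hA h0 hA01 hmin u p hup hmaxu hmaxp he h4 hB
      · rcases (show Fintype.card V = 3 ∨ Fintype.card V = 5 ∨ 7 ≤ Fintype.card V by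
          obtain ⟨k, hk⟩ := ho; omega) with h | h | h
        · exact good_three A hA h0 hAle hmin u hmaxu h
        · exact good_five A hA h0 hA01 hmin u p hup hmaxu hmaxp h
        · exact caseA_odd A hA h0 hA01 hmin u p hup hmaxu hmaxp ho h hB

end Pool.Agent.Helper29.Bisect
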